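import Mathlib

/-!
Finite Ramsey theorem for pairs, a product version, and the fact that every transitive pattern
occurs, transitively for a given second colouring, in the pattern `[j mod n < i mod n]`.
-/

namespace Pool.Agent.EMP

/-- end-homogeneous sequences -/
lemma endhom (C : Type) [Finite C] [Nonempty C] (k : ℕ) :
    ∃ N : ℕ, ∀ (χ : ℕ → ℕ → C) (S : Finset ℕ), N ≤ S.card →
      ∃ X : ℕ → ℕ, ∃ col : ℕ → C, (∀ a b, a < b → b < k → X a < X b) ∧ (∀ a, a < k → X a ∈ S) ∧
        ∀ a b, a < b → b < k → χ (X a) (X b) = col a := by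
  classical
  have : Fintype C := Fintype.ofFinite C
  induction k with
  | zero =>
    refine ⟨0, fun χ S _ => ⟨fun _ => 0, fun _ => Classical.arbitrary C, ?_, ?_, ?_⟩⟩
    · intro a b _ h; omega
    · intro a h; omega
    · intro a b _ h; omega
  | succ k ih =>
    obtain ⟨N, hN⟩ := ih
    refine ⟨Fintype.card C * N + 1, fun χ S hS => ?_⟩
    have hne : S.Nonempty := by
      rw [← Finset.card_pos]; omega
    set s := S.min' hne with hs
    set T := S.erase s with hT
    have hTc : Fintype.card C * N ≤ T.card := by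
      rw [hT, Finset.card_erase_of_mem (Finset.min'_mem S hne)]; omega
    obtain ⟨c, hc⟩ : ∃ c : C, N ≤ (T.filter (fun x => χ s x = c)).card := by
      by_contra hcon
      push Not at hcon
      have hsum : T.card = ∑ c : C, (T.filter (fun x => χ s x = c)).card :=
        Finset.card_eq_sum_card_fiberwise (f := fun x => χ s x) (t := Finset.univ) (by simp)
      have hNpos : 0 < N := by
        have := hcon (Classical.arbitrary C); omega
      have hlt : ∑ c : C, (T.filter (fun x => χ s x = c)).card < ∑ _c : C, N := by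
        apply Finset.sum_lt_sum_of_nonempty
        · exact Finset.univ_nonempty
        · intro c _; exact hcon c
      simp only [Finset.sum_const, Finset.card_univ, smul_eq_mul] at hlt
      omega
    obtain ⟨X, col, h1, h2, h3⟩ := hN χ _ hc
    refine ⟨fun a => if a = 0 then s else X (a - 1), fun a => if a = 0 then c else col (a - 1), ?_, ?_, ?_⟩
    · intro a b hab hb
      have hb0 : b ≠ 0 := by omega
      by_cases ha : a = 0
      · simp only [ha, hb0, if_true, if_false]
        have hm := h2 (b - 1) (by omega)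
        rw [Finset.mem_filter, hT, Finset.mem_erase] at hm
        exact lt_of_le_of_ne (Finset.min'_le S _ hm.1.2) (Ne.symm hm.1.1)
      · simp only [ha, hb0, if_false]
        exact h1 _ _ (by omega) (by omega)
    · intro a ha
      by_cases ha0 : a = 0
      · simp only [ha0, if_true]; exact Finset.min'_mem S hne
      · simp only [ha0, if_false]
        have hm := h2 (a - 1) (by omega)
        rw [Finset.mem_filter, hT, Finset.mem_erase] at hm
        exact hm.1.2
    · intro a b hab hb
      have hb0 : b ≠ 0 := by omega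
      by_cases ha : a = 0
      · simp only [ha, hb0, if_true, if_false]
        have hm := h2 (b - 1) (by omega)
        rw [Finset.mem_filter] at hm
        exact hm.2
      · simp only [ha, hb0, if_false]
        exact h3 _ _ (by omega) (by omega)

/-- finite Ramsey theorem for pairs -/
lemma ramsey_pairs (C : Type) [Finite C] [Nonempty C] (k : ℕ) :
    ∃ N : ℕ, ∀ χ : ℕ → ℕ → C, ∃ X : ℕ → ℕ, ∃ c : C,
      (∀ a b, a < b → b < k → X a < X b) ∧ (∀ a, a < k → X a < N) ∧
        ∀ a b, a < b → b < k → χ (X a) (X b) = c := by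
  classical
  have : Fintype C := Fintype.ofFinite C
  obtain ⟨N, hN⟩ := endhom C (Fintype.card C * k + 1)
  refine ⟨N, fun χ => ?_⟩
  obtain ⟨X, col, h1, h2, h3⟩ := hN χ (Finset.range N) (by simp)
  -- pigeonhole on col
  obtain ⟨c, hc⟩ : ∃ c : C, k ≤ ((Finset.range (Fintype.card C * k + 1)).filter (fun a => col a = c)).card := by
    by_contra hcon
    push Not at hcon
    have hsum : (Finset.range (Fintype.card C * k + 1)).card
        = ∑ c : C, ((Finset.range (Fintype.card C * k + 1)).filter (fun a => col a = c)).card :=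
      Finset.card_eq_sum_card_fiberwise (f := fun x => col x) (t := Finset.univ) (by simp)
    have hle : ∑ c : C, ((Finset.range (Fintype.card C * k + 1)).filter (fun a => col a = c)).card
        ≤ ∑ _c : C, k := by
      apply Finset.sum_le_sum
      intro c _; exact (hcon c).le
    simp only [Finset.sum_const, Finset.card_univ, smul_eq_mul, Finset.card_range] at hle hsum
    omega
  obtain ⟨S, hS⟩ : ∃ S, S = (Finset.range (Fintype.card C * k + 1)).filter (fun a => col a = c) :=
    ⟨_, rfl⟩
  rw [← hS] at hc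
  have hSm : ∀ a ∈ S, a < Fintype.card C * k + 1 ∧ col a = c := by
    intro a ha
    rw [hS, Finset.mem_filter, Finset.mem_range] at ha
    exact ha
  -- enumerate first k elements of S
  let e := S.orderEmbOfFin rfl
  refine ⟨fun a => if h : a < S.card then X (e ⟨a, h⟩) else 0, c, ?_, ?_, ?_⟩
  · intro a b hab hb
    have ha' : a < S.card := by omega
    have hb' : b < S.card := by omega
    simp only [ha', hb', dif_pos]
    have hmem := hSm _ (Finset.orderEmbOfFin_mem S rfl ⟨b, hb'⟩)
    exact h1 _ _ (e.strictMono (by exact hab)) hmem.1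
  · intro a ha
    have ha' : a < S.card := by omega
    simp only [ha', dif_pos]
    have hmem := hSm _ (Finset.orderEmbOfFin_mem S rfl ⟨a, ha'⟩)
    exact Finset.mem_range.mp (h2 _ hmem.1)
  · intro a b hab hb
    have ha' : a < S.card := by omega
    have hb' : b < S.card := by omega
    simp only [ha', hb', dif_pos]
    have hmem := hSm _ (Finset.orderEmbOfFin_mem S rfl ⟨b, hb'⟩)
    have hmema := hSm _ (Finset.orderEmbOfFin_mem S rfl ⟨a, ha'⟩)
    rw [h3 _ _ (e.strictMono (by exact hab)) hmem.1]
    exact hmema.2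

/-- product Ramsey on the grid -/
lemma ramsey_grid (k : ℕ) :
    ∃ N n : ℕ, ∀ V : ℕ → ℕ → Bool, ∃ X Y : ℕ → ℕ, ∃ α β : Bool,
      (∀ a b, a < b → b < k → X a < X b) ∧ (∀ a, a < k → X a < N) ∧
      (∀ a b, a < b → b < k → Y a < Y b) ∧ (∀ a, a < k → Y a < n) ∧
      (∀ a b c d, a < b → b < k → c < d → d < k → V (X a * n + Y c) (X b * n + Y d) = α) ∧
      (∀ a b c d, a < b → b < k → c < d → d < k → V (X a * n + Y d) (X b * n + Y c) = β) := by
  classical
  obtain ⟨n, hn⟩ := ramsey_pairs (Bool × Bool) k
  obtain ⟨N, hN⟩ := ramsey_pairs (Fin n → Fin n → Bool × Bool) k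
  refine ⟨N, n, fun V => ?_⟩
  obtain ⟨X, h, hX1, hX2, hX3⟩ := hN (fun x x' c d => (V (x * n + c) (x' * n + d), V (x * n + d) (x' * n + c)))
  obtain ⟨Y, ab, hY1, hY2, hY3⟩ := hn (fun c d => if hc : c < n then if hd : d < n then h ⟨c, hc⟩ ⟨d, hd⟩ else (false, false) else (false, false))
  refine ⟨X, Y, ab.1, ab.2, hX1, hX2, hY1, hY2, ?_, ?_⟩
  · intro a b c d hab hb hcd hd
    have h1 := hX3 a b hab hb
    have h2 := hY3 c d hcd hd
    rw [dif_pos (hY2 c (by omega)), dif_pos (hY2 d hd)] at h2
    have h3 := congrFun (congrFun h1 ⟨Y c, hY2 c (by omega)⟩) ⟨Y d, hY2 d hd⟩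
    rw [h2] at h3
    exact congrArg Prod.fst h3
  · intro a b c d hab hb hcd hd
    have h1 := hX3 a b hab hb
    have h2 := hY3 c d hcd hd
    rw [dif_pos (hY2 c (by omega)), dif_pos (hY2 d hd)] at h2
    have h3 := congrFun (congrFun h1 ⟨Y c, hY2 c (by omega)⟩) ⟨Y d, hY2 d hd⟩
    rw [h2] at h3
    exact congrArg Prod.snd h3

/-- A 2-colouring `P` of pairs `i < j ≤ m` is a transitive pattern (a permutation pattern). -/
def Trp (P : ℕ → ℕ → Bool) (m : ℕ) : Prop :=
  ∀ a b c, a < b → b < c → c ≤ m → ¬ (P a b = P b c ∧ P a b ≠ P a c)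

/-- the order given by a pattern -/
def plt (P : ℕ → ℕ → Bool) (a b : ℕ) : Prop := (a < b ∧ P a b = false) ∨ (b < a ∧ P b a = true)

lemma plt_trans {P : ℕ → ℕ → Bool} {m : ℕ} (h : Trp P m) {a b c : ℕ} (ha : a ≤ m) (hb : b ≤ m)
    (hc : c ≤ m) (hab : plt P a b) (hbc : plt P b c) : plt P a c := by
  unfold plt at *
  have key := h
  unfold Trp at key
  rcases lt_trichotomy a c with hac | hac | hac
  · left
    refine ⟨hac, ?_⟩
    rcases hab with ⟨h1, h2⟩ | ⟨h1, h2⟩ <;> rcases hbc with ⟨h3, h4⟩ | ⟨h3, h4⟩
    · have := key a b c h1 h3 hc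
      rw [h2, h4] at this
      cases hp : P a c
      · rfl
      · rw [hp] at this; simp at this
    · -- a < b, c < b, a < c : P a b = false, P c b = true
      have := key a c b hac h3 hb
      rw [h2, h4] at this
      cases hp : P a c
      · rfl
      · rw [hp] at this; simp at this
    · -- b < a, b < c, a < c: P b a = true, P b c = false
      have := key b a c h1 hac hc
      rw [h2, h4] at this
      cases hp : P a c
      · rfl
      · rw [hp] at this; simp at this
    · omega
  · exfalso
    subst hac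
    rcases hab with ⟨h1, h2⟩ | ⟨h1, h2⟩ <;> rcases hbc with ⟨h3, h4⟩ | ⟨h3, h4⟩
    · omega
    · rw [h2] at h4; simp at h4
    · rw [h2] at h4; simp at h4
    · omega
  · right
    refine ⟨hac, ?_⟩
    rcases hab with ⟨h1, h2⟩ | ⟨h1, h2⟩ <;> rcases hbc with ⟨h3, h4⟩ | ⟨h3, h4⟩
    · omega
    · -- a < b, c < b, c < a: P a b = false, P c b = true
      have := key c a b hac h1 hb
      rw [h2, h4] at this
      cases hp : P c a
      · rw [hp] at this; simp at this
      · rfl
    · -- b < a, b < c, c < a : P b a = true, P b c = false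
      have := key b c a h3 hac ha
      rw [h2, h4] at this
      cases hp : P c a
      · rw [hp] at this; simp at this
      · rfl
    · have := key c b a h3 h1 ha
      rw [h2, h4] at this
      cases hp : P c a
      · rw [hp] at this; simp at this
      · rfl

lemma plt_irrefl (P : ℕ → ℕ → Bool) (a : ℕ) : ¬ plt P a a := by
  unfold plt; omega

open Classical in
/-- rank of `a` in the order given by the pattern -/
noncomputable def prank (P : ℕ → ℕ → Bool) (m a : ℕ) : ℕ :=
  ((Finset.range (m + 1)).filter (fun b => plt P b a)).card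

lemma prank_lt_of_plt {P : ℕ → ℕ → Bool} {m : ℕ} (h : Trp P m) {a b : ℕ} (ha : a ≤ m) (hb : b ≤ m)
    (hab : plt P a b) : prank P m a < prank P m b := by
  classical
  unfold prank
  apply Finset.card_lt_card
  rw [Finset.ssubset_iff_of_subset]
  · refine ⟨a, ?_, ?_⟩
    · simp only [Finset.mem_filter, Finset.mem_range]
      exact ⟨by omega, hab⟩
    · simp only [Finset.mem_filter, Finset.mem_range, not_and]
      intro _; exact plt_irrefl P a
  · intro c hc
    simp only [Finset.mem_filter, Finset.mem_range] at hc ⊢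
    exact ⟨hc.1, plt_trans h (by omega) ha hb hc.2 hab⟩

lemma prank_lt (P : ℕ → ℕ → Bool) (m a : ℕ) (ha : a ≤ m) : prank P m a < m + 1 := by
  classical
  unfold prank
  have : ((Finset.range (m + 1)).filter (fun b => plt P b a)).card < (Finset.range (m+1)).card := by
    apply Finset.card_lt_card
    rw [Finset.ssubset_iff_of_subset (Finset.filter_subset _ _)]
    refine ⟨a, Finset.mem_range.mpr (by omega), ?_⟩
    simp only [Finset.mem_filter, Finset.mem_range, not_and]
    intro _; exact plt_irrefl P a
  simpa using this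

/-- the grid pattern is transitive -/
lemma trp_grid (n m : ℕ) : Trp (fun i j => decide (j % n < i % n)) m := by
  intro a b c _ _ _ ⟨h1, h2⟩
  simp only [ne_eq, decide_eq_decide] at h1 h2
  omega

/-- every transitive pattern occurs in the grid pattern, transitively for a given colouring `V` -/
lemma pattern_ramsey (P : ℕ → ℕ → Bool) (m : ℕ) (h : Trp P m) :
    ∃ M n : ℕ, ∀ V : ℕ → ℕ → Bool, ∃ ι : ℕ → ℕ,
      (∀ a b, a < b → b ≤ m → ι a < ι b) ∧ (∀ a, a ≤ m → ι a ≤ M) ∧
      (∀ a b, a < b → b ≤ m → decide (ι b % n < ι a % n) = P a b) ∧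
      (∀ a b c, a < b → b < c → c ≤ m →
        ¬ (V (ι a) (ι b) = V (ι b) (ι c) ∧ V (ι a) (ι b) ≠ V (ι a) (ι c))) := by
  obtain ⟨N, n, hNn⟩ := ramsey_grid (m + 1)
  refine ⟨N * n, n, fun V => ?_⟩
  obtain ⟨X, Y, α, β, hX1, hX2, hY1, hY2, hV1, hV2⟩ := hNn V
  have hYr : ∀ a, a ≤ m → Y (prank P m a) < n := fun a ha => hY2 _ (prank_lt P m a ha)
  have hmod : ∀ a, a ≤ m → (X a * n + Y (prank P m a)) % n = Y (prank P m a) := by
    intro a ha
    rw [Nat.mul_comm, Nat.mul_add_mod, Nat.mod_eq_of_lt (hYr a ha)]
  have hcmp : ∀ a b, a < b → b ≤ m →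
      (P a b = false ∧ prank P m a < prank P m b) ∨ (P a b = true ∧ prank P m b < prank P m a) := by
    intro a b hab hb
    cases hp : P a b
    · left; exact ⟨rfl, prank_lt_of_plt h (by omega) hb (Or.inl ⟨hab, hp⟩)⟩
    · right; exact ⟨rfl, prank_lt_of_plt h hb (by omega) (Or.inr ⟨hab, hp⟩)⟩
  have hVab : ∀ a b, a < b → b ≤ m →
      V (X a * n + Y (prank P m a)) (X b * n + Y (prank P m b)) = if P a b then β else α := by
    intro a b hab hb
    rcases hcmp a b hab hb with ⟨h1, h2⟩ | ⟨h1, h2⟩
    · rw [h1]
      simp only [Bool.false_eq_true, if_false]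
      exact hV1 a b _ _ hab (by omega) h2 (prank_lt P m b hb)
    · rw [h1]
      simp only [if_true]
      exact hV2 a b _ _ hab (by omega) h2 (prank_lt P m a (by omega))
  refine ⟨fun a => X a * n + Y (prank P m a), ?_, ?_, ?_, ?_⟩
  · intro a b hab hb
    have h1 := hX1 a b hab (by omega)
    have h2 := hYr a (by omega)
    have h3 : (X a + 1) * n ≤ X b * n := Nat.mul_le_mul_right n h1
    have h4 : (X a + 1) * n = X a * n + n := by ring
    show X a * n + Y (prank P m a) < X b * n + Y (prank P m b)
    omega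
  · intro a ha
    have h1 := hX2 a (by omega)
    have h2 := hYr a ha
    have h3 : (X a + 1) * n ≤ N * n := Nat.mul_le_mul_right n h1
    have h4 : (X a + 1) * n = X a * n + n := by ring
    show X a * n + Y (prank P m a) ≤ N * n
    omega
  · intro a b hab hb
    show decide ((X b * n + Y (prank P m b)) % n < (X a * n + Y (prank P m a)) % n) = P a b
    rw [hmod a (by omega), hmod b hb]
    rcases hcmp a b hab hb with ⟨h1, h2⟩ | ⟨h1, h2⟩
    · have := hY1 _ _ h2 (prank_lt P m b hb)
      rw [h1]
      simp only [decide_eq_false_iff_not, not_lt]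
      omega
    · have := hY1 _ _ h2 (prank_lt P m a (by omega))
      rw [h1]
      simp only [decide_eq_true_eq]
      omega
  · intro a b c hab hbc hc
    show ¬ (V (X a * n + Y (prank P m a)) (X b * n + Y (prank P m b))
        = V (X b * n + Y (prank P m b)) (X c * n + Y (prank P m c)) ∧
      V (X a * n + Y (prank P m a)) (X b * n + Y (prank P m b))
        ≠ V (X a * n + Y (prank P m a)) (X c * n + Y (prank P m c)))
    rw [hVab a b hab (by omega), hVab b c hbc hc, hVab a c (by omega) hc]
    have := h a b c hab hbc hc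
    revert this
    cases P a b <;> cases P b c <;> cases P a c <;> cases α <;> cases β <;> simp

end Pool.Agent.EMP
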