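import Mathlib
import Pool.Agent.EMP.Ramsey

/-!
Open operators on Cantor space with values in sets of finite sequences of intervals, and the
property that is preserved along the iteration.
-/

namespace Pool.Agent.EMP

/-- oracles -/
abbrev Om := ℕ → Bool

/-- agreement below `n` -/
def agr (n : ℕ) (A B : Om) : Prop := ∀ i, i < n → A i = B i

lemma agr_refl (n : ℕ) (A : Om) : agr n A A := fun _ _ => rfl
lemma agr_symm {n : ℕ} {A B : Om} (h : agr n A B) : agr n B A := fun i hi => (h i hi).symm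
lemma agr_trans {n : ℕ} {A B C : Om} (h : agr n A B) (h' : agr n B C) : agr n A C :=
  fun i hi => (h i hi).trans (h' i hi)
lemma agr_mono {n m : ℕ} (hnm : n ≤ m) {A B : Om} (h : agr m A B) : agr n A B :=
  fun i hi => h i (by omega)

/-- join -/
def jn (A B : Om) : Om := fun n => if n % 2 = 0 then A (n / 2) else B (n / 2)
/-- even part -/
def ev (W : Om) : Om := fun n => W (2 * n)
/-- odd part -/
def od (W : Om) : Om := fun n => W (2 * n + 1)

@[simp] lemma ev_jn (A B : Om) : ev (jn A B) = A := by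
  funext n; simp [ev, jn]

@[simp] lemma od_jn (A B : Om) : od (jn A B) = B := by
  funext n
  have h1 : (2 * n + 1) % 2 = 1 := by omega
  have h2 : (2 * n + 1) / 2 = n := by omega
  simp [od, jn, h1, h2]

lemma agr_jn {n : ℕ} {A A' B B' : Om} (h : agr n A A') (h' : agr n B B') :
    agr (2 * n) (jn A B) (jn A' B') := by
  intro i hi
  unfold jn
  split
  · exact h _ (by omega)
  · exact h' _ (by omega)

lemma agr_jn' {n : ℕ} {A A' B B' : Om} (h : agr n A A') (h' : agr n B B') :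
    agr n (jn A B) (jn A' B') := agr_mono (by omega) (agr_jn h h')

lemma agr_ev {n : ℕ} {W W' : Om} (h : agr (2 * n) W W') : agr n (ev W) (ev W') :=
  fun i hi => h _ (by omega)

lemma agr_od {n : ℕ} {W W' : Om} (h : agr (2 * n) W W') : agr n (od W) (od W') :=
  fun i hi => h _ (by omega)

/-- finite sequences of intervals -/
abbrev Node := List (ℕ × ℕ)
/-- operators -/
abbrev Oper := Om → Set Node

/-- membership only depends on a finite part of the oracle -/
def OpenOp (Ψ : Oper) : Prop := ∀ W ν, ν ∈ Ψ W → ∃ n, ∀ W', agr n W W' → ν ∈ Ψ W'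

/-- enumeration with use `n` -/
def At (Ψ : Oper) (n : ℕ) (W : Om) : Set Node := {ν | ∀ W', agr n W W' → ν ∈ Ψ W'}

lemma At_mono {Ψ : Oper} {n m : ℕ} (h : n ≤ m) (W : Om) : At Ψ n W ⊆ At Ψ m W :=
  fun _ hν W' hW' => hν W' (agr_mono h hW')

lemma At_congr {Ψ : Oper} {n : ℕ} {W W' : Om} (h : agr n W W') : At Ψ n W = At Ψ n W' := by
  ext ν
  exact ⟨fun hν V hV => hν V (agr_trans h hV), fun hν V hV => hν V (agr_trans (agr_symm h) hV)⟩

lemma At_sub {Ψ : Oper} {n : ℕ} {W : Om} : At Ψ n W ⊆ Ψ W := fun _ hν => hν W (agr_refl n W)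

lemma exists_At {Ψ : Oper} (hΨ : OpenOp Ψ) {W : Om} {ν : Node} (h : ν ∈ Ψ W) :
    ∃ n, ν ∈ At Ψ n W := hΨ W ν h

/-- the open kernel of an arbitrary operator -/
def ker (C : Oper) : Oper := fun W => {ν | ∃ n, ∀ W', agr n W W' → ν ∈ C W'}

lemma ker_open (C : Oper) : OpenOp (ker C) := by
  rintro W ν ⟨n, hn⟩
  refine ⟨n, fun W' hW' => ⟨n, fun V hV => hn V (agr_trans hW' hV)⟩⟩

lemma ker_sub (C : Oper) (W : Om) : ker C W ⊆ C W := by
  rintro ν ⟨n, hn⟩
  exact hn W (agr_refl n W)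

/-- left end of the `i`-th interval -/
def lo (ν : Node) (i : ℕ) : ℕ := (ν.getD i (0, 0)).1
/-- right end of the `i`-th interval -/
def hi (ν : Node) (i : ℕ) : ℕ := (ν.getD i (0, 0)).2

lemma lo_append_lt {ν : Node} {x : ℕ × ℕ} {i : ℕ} (h : i < ν.length) :
    lo (ν ++ [x]) i = lo ν i := by
  unfold lo; rw [List.getD_append _ _ _ _ h]

lemma hi_append_lt {ν : Node} {x : ℕ × ℕ} {i : ℕ} (h : i < ν.length) :
    hi (ν ++ [x]) i = hi ν i := by
  unfold hi; rw [List.getD_append _ _ _ _ h]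

lemma lo_append_eq (ν : Node) (x : ℕ × ℕ) : lo (ν ++ [x]) ν.length = x.1 := by
  unfold lo; rw [List.getD_append_right _ _ _ _ le_rfl]; simp

lemma hi_append_eq (ν : Node) (x : ℕ × ℕ) : hi (ν ++ [x]) ν.length = x.2 := by
  unfold hi; rw [List.getD_append_right _ _ _ _ le_rfl]; simp

/-- `ν` looks, for the stable colouring `f` with limit `g`, like the pattern `P` followed by the
present limit. -/
structure PR (f : ℕ → ℕ → Bool) (g : ℕ → Bool) (P : ℕ → ℕ → Bool) (ν : Node) : Prop where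
  lt : ∀ i, i < ν.length → lo ν i < hi ν i
  sorted : ∀ i j, i < j → j < ν.length → hi ν i ≤ lo ν j
  look : ∀ i j, i < j → j < ν.length → ∀ x y, lo ν i ≤ x → x < hi ν i → lo ν j ≤ y → y < hi ν j →
    f x y = P i j
  lim : ∀ i, i < ν.length → ∀ x, lo ν i ≤ x → x < hi ν i → g x = P i ν.length

lemma PR_nil (f : ℕ → ℕ → Bool) (g : ℕ → Bool) (P : ℕ → ℕ → Bool) : PR f g P [] := by
  constructor
  · intro i h; simp at h
  · intro i j _ h; simp at h
  · intro i j _ h; simp at h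
  · intro i h; simp at h

/-- the instance of the property -/
def Inst (f : ℕ → ℕ → Bool) (g : ℕ → Bool) (W : Om) (Ψ : Oper) (P : ℕ → ℕ → Bool) (m : ℕ) : Prop :=
  (∀ ν : Node, ν.length < m → (ν = [] ∨ ν ∈ Ψ W) → PR f g P ν →
    ∀ b, ∃ p q, b ≤ p ∧ p < q ∧ ν ++ [(p, q)] ∈ Ψ W) →
  ∃ ν : Node, (ν = [] ∨ ν ∈ Ψ W) ∧ ν.length = m ∧ PR f g P ν

/-- patterns coded by finite sets -/
def pat (S : Finset (ℕ × ℕ)) : ℕ → ℕ → Bool := fun i j => decide ((i, j) ∈ S)

/-- the property preserved along the iteration -/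
def Good (𝒞 : Set Oper) (f : ℕ → ℕ → Bool) (g : ℕ → Bool) (W : Om) : Prop :=
  ∀ Ψ ∈ 𝒞, ∀ S m, Trp (pat S) m → Inst f g W Ψ (pat S) m

/-- `Inst` only depends on the pattern up to `m`. -/
lemma PR_congr {f : ℕ → ℕ → Bool} {g : ℕ → Bool} {P Q : ℕ → ℕ → Bool} {m : ℕ}
    (h : ∀ i j, i < j → j ≤ m → P i j = Q i j) {ν : Node} (hν : ν.length ≤ m)
    (hPR : PR f g P ν) : PR f g Q ν := by
  refine ⟨hPR.lt, hPR.sorted, ?_, ?_⟩
  · intro i j hij hj x y h1 h2 h3 h4
    rw [← h i j hij (by omega)]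
    exact hPR.look i j hij hj x y h1 h2 h3 h4
  · intro i hi x h1 h2
    rw [← h i _ hi hν]
    exact hPR.lim i hi x h1 h2

lemma Inst_congr {f : ℕ → ℕ → Bool} {g : ℕ → Bool} {W : Om} {Ψ : Oper} {P Q : ℕ → ℕ → Bool} {m : ℕ}
    (h : ∀ i j, i < j → j ≤ m → P i j = Q i j) (hI : Inst f g W Ψ P m) : Inst f g W Ψ Q m := by
  intro hyp
  obtain ⟨ν, h1, h2, h3⟩ := hI (fun ν hl hν hPR b =>
    hyp ν hl hν (PR_congr h (by omega) hPR) b)
  exact ⟨ν, h1, h2, PR_congr h (by omega) h3⟩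

/-- the code of a colouring -/
def code (f : ℕ → ℕ → Bool) : Om := fun n => decide (n.unpair.1 < n.unpair.2) && f n.unpair.1 n.unpair.2

lemma code_agr {f f' : ℕ → ℕ → Bool} {n : ℕ} (h : ∀ x y, x < y → y < n → f x y = f' x y) :
    agr n (code f) (code f') := by
  intro i hi
  unfold code
  by_cases hlt : i.unpair.1 < i.unpair.2
  · have h2 : i.unpair.2 ≤ i := Nat.unpair_right_le i
    rw [h _ _ hlt (by omega)]
  · simp [hlt]

end Pool.Agent.EMP
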