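import Mathlib
import Pool.Agent.EMP.Basic

/-!
Basis lemma: every nonempty closed class given by an operator of the class `𝒞` has a member
preserving the property.
-/

namespace Pool.Agent.EMP

lemma isOpen_of_local {S : Set Om} (h : ∀ P ∈ S, ∃ k, ∀ P', agr k P P' → P' ∈ S) : IsOpen S := by
  rw [isOpen_pi_iff]
  intro P hP
  obtain ⟨k, hk⟩ := h P hP
  refine ⟨Finset.range k, fun a => {P a}, fun a _ => ⟨isOpen_discrete _, rfl⟩, ?_⟩
  intro P' hP'
  apply hk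
  intro i hi
  have := hP' i (by simpa using hi)
  exact (Set.mem_singleton_iff.mp this).symm

lemma compact_unif {O : ℕ → Set Om} (hmono : ∀ n m, n ≤ m → O n ⊆ O m)
    (hloc : ∀ n, ∀ P ∈ O n, ∃ k, ∀ P', agr k P P' → P' ∈ O n) (hcov : ∀ P, ∃ n, P ∈ O n) :
    ∃ n, ∀ P, P ∈ O n := by
  have hopen : ∀ n, IsOpen (O n) := fun n => isOpen_of_local (hloc n)
  have hdir : Directed (· ⊆ ·) O := by
    intro n m
    exact ⟨max n m, hmono _ _ (le_max_left _ _), hmono _ _ (le_max_right _ _)⟩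
  obtain ⟨n, hn⟩ := (isCompact_univ : IsCompact (Set.univ : Set Om)).elim_directed_cover O hopen
    (fun P _ => Set.mem_iUnion.mpr (hcov P)) hdir
  exact ⟨n, fun P => hn (Set.mem_univ P)⟩

/-- nested nonempty classes have a common element -/
lemma compact_inter {C : ℕ → Set Om} (hanti : ∀ n, C (n + 1) ⊆ C n)
    (hloc : ∀ n, ∀ P, P ∉ C n → ∃ k, ∀ P', agr k P P' → P' ∉ C n) (hne : ∀ n, (C n).Nonempty) :
    ∃ P, ∀ n, P ∈ C n := by
  have hanti' : ∀ n m, n ≤ m → C m ⊆ C n := by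
    intro n m h
    induction h with
    | refl => exact subset_rfl
    | step _ ih => exact (hanti _).trans ih
  by_contra hcon
  push Not at hcon
  obtain ⟨n, hn⟩ := compact_unif (O := fun n => (C n)ᶜ)
    (fun n m h => Set.compl_subset_compl.mpr (hanti' n m h))
    (fun n P hP => hloc n P hP) (fun P => hcon P)
  obtain ⟨P, hP⟩ := hne n
  exact hn P hP

/-- `μ` lies inside `ν` -/
def inside (μ ν : Node) : Prop :=
  μ.length = ν.length ∧ ∀ i, i < ν.length → lo ν i ≤ lo μ i ∧ lo μ i < hi μ i ∧ hi μ i ≤ hi ν i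

lemma PR_inside {f : ℕ → ℕ → Bool} {g : ℕ → Bool} {P : ℕ → ℕ → Bool} {μ ν : Node}
    (h : PR f g P ν) (hμ : inside μ ν) : PR f g P μ := by
  obtain ⟨hl, hin⟩ := hμ
  refine ⟨?_, ?_, ?_, ?_⟩
  · intro i hi; exact (hin i (by omega)).2.1
  · intro i j hij hj
    have h1 := hin i (by omega)
    have h2 := hin j (by omega)
    have h3 := h.sorted i j hij (by omega)
    omega
  · intro i j hij hj x y hx1 hx2 hy1 hy2
    have h1 := hin i (by omega)
    have h2 := hin j (by omega)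
    exact h.look i j hij (by omega) x y (by omega) (by omega) (by omega) (by omega)
  · intro i hi x hx1 hx2
    have h1 := hin i (by omega)
    rw [hl]
    exact h.lim i (by omega) x (by omega) (by omega)

/-- right end of the last interval -/
def bd (ν : Node) : ℕ := hi ν (ν.length - 1)

lemma bd_append (ν : Node) (x : ℕ × ℕ) : bd (ν ++ [x]) = x.2 := by
  unfold bd
  have : (ν ++ [x]).length - 1 = ν.length := by simp
  rw [this, hi_append_eq]

lemma inside_append {μ ν : Node} (h : inside μ ν) {p q b u : ℕ} (h1 : b ≤ p) (h2 : p < q) (h3 : q ≤ u) :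
    inside (μ ++ [(p, q)]) (ν ++ [(b, u)]) := by
  obtain ⟨hl, hin⟩ := h
  refine ⟨by simp [hl], ?_⟩
  intro i hi
  by_cases hi' : i < ν.length
  · rw [lo_append_lt hi', hi_append_lt hi', lo_append_lt (by omega), hi_append_lt (by omega)]
    exact hin i hi'
  · have : i = ν.length := by simp at hi; omega
    subst this
    rw [lo_append_eq, hi_append_eq]
    rw [← hl, lo_append_eq, hi_append_eq]
    exact ⟨h1, h2, h3⟩

/-- operator for the basis lemma -/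
def opW (Ψ D : Oper) : Oper := fun W =>
  {ν | ∀ P : Om, [] ∈ At D (bd ν) (jn W P) ∨ ∃ μ, inside μ ν ∧ μ ∈ At Ψ (bd ν) (jn W P)}

lemma opW_open (Ψ D : Oper) : OpenOp (opW Ψ D) := by
  intro W ν hν
  refine ⟨bd ν, fun W' hW' P => ?_⟩
  have hagr : agr (bd ν) (jn W P) (jn W' P) := agr_jn' hW' (agr_refl _ P)
  rw [← At_congr hagr, ← At_congr hagr]
  exact hν P

/-- operator for the basis lemma -/
def opBlock (Ψ D : Oper) (N : ℕ) (R : Finset ℕ) (μ : Node) (b : ℕ) : Oper := fun Y =>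
  D Y ∪ {ν | ν = [] ∧ ((∃ i, i < N ∧ od Y i ≠ decide (i ∈ R)) ∨
    ∃ p q, b ≤ p ∧ p < q ∧ μ ++ [(p, q)] ∈ Ψ Y)}

lemma opBlock_open {Ψ D : Oper} (hΨ : OpenOp Ψ) (hD : OpenOp D) (N : ℕ) (R : Finset ℕ) (μ : Node)
    (b : ℕ) : OpenOp (opBlock Ψ D N R μ b) := by
  rintro Y ν (h | ⟨h0, ⟨i, hi, hne⟩ | ⟨p, q, h1, h2, h3⟩⟩)
  · obtain ⟨n, hn⟩ := hD Y ν h
    exact ⟨n, fun Y' hY' => Or.inl (hn Y' hY')⟩
  · refine ⟨2 * i + 2, fun Y' hY' => Or.inr ⟨h0, Or.inl ⟨i, hi, ?_⟩⟩⟩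
    have : od Y' i = od Y i := (hY' (2 * i + 1) (by omega)).symm
    rw [this]; exact hne
  · obtain ⟨n, hn⟩ := hΨ Y _ h3
    exact ⟨n, fun Y' hY' => Or.inr ⟨h0, Or.inr ⟨p, q, h1, h2, hn Y' hY'⟩⟩⟩

lemma wkl_step {𝒞 : Set Oper} {f : ℕ → ℕ → Bool} {g : ℕ → Bool}
    (ho : ∀ Ψ ∈ 𝒞, OpenOp Ψ) (hW : ∀ Ψ ∈ 𝒞, ∀ D ∈ 𝒞, opW Ψ D ∈ 𝒞)
    (hB : ∀ Ψ ∈ 𝒞, ∀ D ∈ 𝒞, ∀ N R μ b, opBlock Ψ D N R μ b ∈ 𝒞)
    {W : Om} (hG : Good 𝒞 f g W) {D : Oper} (hD : D ∈ 𝒞) (hne : ∃ P, [] ∉ D (jn W P))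
    {Ψ : Oper} (hΨ : Ψ ∈ 𝒞) (S : Finset (ℕ × ℕ)) (m : ℕ) (hS : Trp (pat S) m) :
    ∃ D' ∈ 𝒞, (∃ P, [] ∉ D' (jn W P)) ∧ (∀ P, [] ∉ D' (jn W P) → [] ∉ D (jn W P)) ∧
      ∀ P, [] ∉ D' (jn W P) → Inst f g (jn W P) Ψ (pat S) m := by
  classical
  by_cases hcase : ∃ P, [] ∉ D (jn W P) ∧ ∃ μ : Node, μ.length < m ∧ (μ = [] ∨ μ ∈ Ψ (jn W P)) ∧
      PR f g (pat S) μ ∧ ∃ b, ∀ p q, b ≤ p → p < q → μ ++ [(p, q)] ∉ Ψ (jn W P)
  · obtain ⟨P, hP, μ, hμl, hμ, hPR, b, hb⟩ := hcase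
    -- use of μ
    obtain ⟨N, hN⟩ : ∃ N, ∀ P', agr N P P' → (μ = [] ∨ μ ∈ Ψ (jn W P')) := by
      rcases hμ with h | h
      · exact ⟨0, fun _ _ => Or.inl h⟩
      · obtain ⟨n, hn⟩ := ho Ψ hΨ _ _ h
        exact ⟨n, fun P' hP' => Or.inr (hn _ (agr_jn' (agr_refl _ _) hP'))⟩
    refine ⟨opBlock Ψ D N ((Finset.range N).filter (fun i => P i = true)) μ b, hB _ hΨ _ hD _ _ _ _,
      ⟨P, ?_⟩, ?_, ?_⟩
    · rintro (h | ⟨_, ⟨i, hi, hne⟩ | ⟨p, q, h1, h2, h3⟩⟩)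
      · exact hP h
      · rw [od_jn] at hne
        apply hne
        simp [hi]
      · exact hb p q h1 h2 h3
    · intro P' hP' h
      exact hP' (Or.inl h)
    · intro P' hP' hyp
      exfalso
      have hagr : agr N P P' := by
        intro i hi
        by_contra hne
        apply hP'
        right
        refine ⟨rfl, Or.inl ⟨i, hi, ?_⟩⟩
        rw [od_jn]
        intro h
        apply hne
        rw [h]
        simp [hi]
      obtain ⟨p, q, h1, h2, h3⟩ := hyp μ hμl (hN P' hagr) hPR b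
      exact hP' (Or.inr ⟨rfl, Or.inr ⟨p, q, h1, h2, h3⟩⟩)
  · push Not at hcase
    refine ⟨D, hD, hne, fun _ h => h, fun P hP _ => ?_⟩
    -- the operator `opW Ψ D`
    have hI := hG _ (hW Ψ hΨ D hD) S m hS
    have hun : ∀ ν : Node, ν.length < m → (ν = [] ∨ ν ∈ opW Ψ D W) → PR f g (pat S) ν →
        ∀ b, ∃ p q, b ≤ p ∧ p < q ∧ ν ++ [(p, q)] ∈ opW Ψ D W := by
      intro ν hνl hν hPR b
      set b' := max b (bd ν) with hb'
      have hmono : ∀ n n', n ≤ n' → ∀ μ' : Node, inside μ' (ν ++ [(b', n)]) →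
          inside μ' (ν ++ [(b', n')]) := by
        intro n n' hnn' μ' h1
        obtain ⟨hl, hin⟩ := h1
        refine ⟨by simpa using hl, ?_⟩
        intro i hi
        by_cases hi' : i < ν.length
        · have := hin i (by simp; omega)
          rw [lo_append_lt hi', hi_append_lt hi'] at this ⊢
          exact this
        · have hi2 : i = ν.length := by simp at hi; omega
          subst hi2
          have := hin ν.length (by simp)
          rw [lo_append_eq, hi_append_eq] at this ⊢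
          exact ⟨this.1, this.2.1, this.2.2.trans hnn'⟩
      have hunif : ∃ n, ∀ P : Om, P ∈ {P : Om | [] ∈ At D n (jn W P) ∨
          ∃ μ' , inside μ' (ν ++ [(b', n)]) ∧ μ' ∈ At Ψ n (jn W P)} := by
        refine compact_unif (O := fun n => {P : Om | [] ∈ At D n (jn W P) ∨
          ∃ μ' , inside μ' (ν ++ [(b', n)]) ∧ μ' ∈ At Ψ n (jn W P)}) ?_ ?_ ?_
        · -- monotone
          rintro n n' hnn' P (h | ⟨μ', h1, h2⟩)
          · left; exact At_mono hnn' _ h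
          · right
            exact ⟨μ', hmono n n' hnn' μ' h1, At_mono hnn' _ h2⟩
        · -- local
          intro n P hP
          refine ⟨n, fun P' hP' => ?_⟩
          have hagr : agr n (jn W P) (jn W P') := agr_jn' (agr_refl _ _) hP'
          change [] ∈ At D n (jn W P') ∨
            ∃ μ' , inside μ' (ν ++ [(b', n)]) ∧ μ' ∈ At Ψ n (jn W P')
          rw [← At_congr hagr, ← At_congr hagr]
          exact hP
        · -- cover
          intro P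
          by_cases hP : [] ∈ D (jn W P)
          · obtain ⟨n, hn⟩ := exists_At (ho D hD) hP
            exact ⟨n, Or.inl hn⟩
          · obtain ⟨μ, hμin, hμ⟩ : ∃ μ, inside μ ν ∧ (μ = [] ∨ μ ∈ Ψ (jn W P)) := by
              rcases hν with h | h
              · refine ⟨[], ⟨by simp [h], ?_⟩, Or.inl rfl⟩
                intro i hi; rw [h] at hi; simp at hi
              · rcases h P with h' | ⟨μ, h1, h2⟩
                · exact absurd (At_sub h') hP
                · exact ⟨μ, h1, Or.inr (At_sub h2)⟩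
            obtain ⟨p, q, h1, h2, h3⟩ := hcase P hP μ (by rw [hμin.1]; exact hνl) hμ
              (PR_inside hPR hμin) b'
            obtain ⟨n, hn⟩ := exists_At (ho Ψ hΨ) h3
            refine ⟨max n q, Or.inr ⟨μ ++ [(p, q)], inside_append hμin h1 h2 (le_max_right _ _),
              At_mono (le_max_left _ _) _ hn⟩⟩
      obtain ⟨n, hn⟩ := hunif
      refine ⟨b', max n (b' + 1), le_max_left _ _, by omega, ?_⟩
      intro P
      rw [bd_append]
      rcases hn P with h | ⟨μ', h1, h2⟩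
      · left
        exact At_mono (le_max_left _ _) _ h
      · right
        exact ⟨μ', hmono _ _ (le_max_left _ _) μ' h1, At_mono (le_max_left _ _) _ h2⟩
    obtain ⟨ν, hν, hνl, hPR⟩ := hI hun
    rcases hν with h | h
    · exact ⟨[], Or.inl rfl, by rw [← hνl, h], PR_nil _ _ _⟩
    · rcases h P with h' | ⟨μ, h1, h2⟩
      · exact absurd (At_sub h') hP
      · exact ⟨μ, Or.inr (At_sub h2), by rw [h1.1, hνl], PR_inside hPR h1⟩

/-- basis lemma -/
theorem wkl {𝒞 : Set Oper} {f : ℕ → ℕ → Bool} {g : ℕ → Bool} (hc : 𝒞.Countable)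
    (ho : ∀ Ψ ∈ 𝒞, OpenOp Ψ) (hW : ∀ Ψ ∈ 𝒞, ∀ D ∈ 𝒞, opW Ψ D ∈ 𝒞)
    (hB : ∀ Ψ ∈ 𝒞, ∀ D ∈ 𝒞, ∀ N R μ b, opBlock Ψ D N R μ b ∈ 𝒞)
    {W : Om} (hG : Good 𝒞 f g W) {D : Oper} (hD : D ∈ 𝒞) (hne : ∃ P, [] ∉ D (jn W P)) :
    ∃ P, [] ∉ D (jn W P) ∧ Good 𝒞 f g (jn W P) := by
  classical
  have hcR : Countable (𝒞 × Finset (ℕ × ℕ) × ℕ) := by
    have : Countable 𝒞 := hc.to_subtype
    infer_instance
  have : Nonempty (𝒞 × Finset (ℕ × ℕ) × ℕ) := ⟨(⟨D, hD⟩, ∅, 0)⟩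
  obtain ⟨e, he⟩ := exists_surjective_nat (𝒞 × Finset (ℕ × ℕ) × ℕ)
  -- the type of operators defining nonempty classes
  let T := {E : Oper // E ∈ 𝒞 ∧ ∃ P, [] ∉ E (jn W P)}
  have step : ∀ n : ℕ, ∀ E : T, ∃ E' : T, (∀ P, [] ∉ E'.1 (jn W P) → [] ∉ E.1 (jn W P)) ∧
      (Trp (pat (e n).2.1) (e n).2.2 →
        ∀ P, [] ∉ E'.1 (jn W P) → Inst f g (jn W P) (e n).1.1 (pat (e n).2.1) (e n).2.2) := by
    intro n E
    by_cases ht : Trp (pat (e n).2.1) (e n).2.2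
    · obtain ⟨D', h1, h2, h3, h4⟩ := wkl_step ho hW hB hG E.2.1 E.2.2 (e n).1.2 (e n).2.1 (e n).2.2 ht
      exact ⟨⟨D', h1, h2⟩, h3, fun _ => h4⟩
    · exact ⟨E, fun _ h => h, fun h => absurd h ht⟩
  choose nxt hn1 hn2 using step
  let c : ℕ → T := fun n => Nat.rec ⟨D, hD, hne⟩ (fun n p => nxt n p) n
  have hcs : ∀ n, c (n + 1) = nxt n (c n) := fun n => rfl
  obtain ⟨P, hP⟩ := compact_inter (C := fun n => {P | [] ∉ (c n).1 (jn W P)})
    (fun n P hP => hn1 n (c n) P (by rw [← hcs]; exact hP))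
    (by
      intro n P hP
      have hP : [] ∈ (c n).1 (jn W P) := not_not.mp hP
      obtain ⟨k, hk⟩ := ho _ (c n).2.1 _ _ hP
      refine ⟨k, fun P' hP' hcon => ?_⟩
      exact hcon (hk _ (agr_jn' (agr_refl _ _) hP')))
    (fun n => (c n).2.2)
  refine ⟨P, hP 0, ?_⟩
  intro Ψ hΨ S m hS
  obtain ⟨n, hn⟩ := he (⟨Ψ, hΨ⟩, S, m)
  have h1 := hn2 n (c n)
  rw [hn] at h1
  exact h1 hS P (by rw [← hcs]; exact hP (n + 1))

end Pool.Agent.EMP
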