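import Mathlib
import Pool.Agent.EMP.WKL

/-!
Definitions and locality lemmas for the forcing that solves an instance of the Erdos-Moser theorem.
-/

namespace Pool.Agent.EMP

/-- finite sets with all triples transitive -/
def TrS (T : ℕ → ℕ → Bool) (E : Finset ℕ) : Prop :=
  ∀ x ∈ E, ∀ y ∈ E, ∀ z ∈ E, x < y → y < z → ¬ (T x y = T y z ∧ T x y ≠ T x z)

lemma TrS_congr {T T' : ℕ → ℕ → Bool} {E : Finset ℕ}
    (h : ∀ x ∈ E, ∀ y ∈ E, x < y → T x y = T' x y) (hT : TrS T E) : TrS T' E := by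
  intro x hx y hy z hz hxy hyz
  rw [← h x hx y hy hxy, ← h y hy z hz hyz, ← h x hx z hz (by omega)]
  exact hT x hx y hy z hz hxy hyz

lemma TrS_mono {T : ℕ → ℕ → Bool} {E E' : Finset ℕ} (h : E ⊆ E') (hT : TrS T E') : TrS T E :=
  fun x hx y hy z hz => hT x (h hx) y (h hy) z (h hz)

/-- the colouring coded by the odd part of the oracle -/
def TZ (Z : Om) : ℕ → ℕ → Bool := fun x y => od Z (Nat.pair x y)

/-- characteristic function of a finite set -/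
def chF (D : Finset ℕ) : Om := fun n => decide (n ∈ D)

/-- `Ψ` with oracle `Z ⊕ (F ∪ E)` and use `2n` -/
def Aop (Ψ : Oper) (F : Finset ℕ) (Z : Om) (n : ℕ) (E : Finset ℕ) : Set Node :=
  At Ψ (2 * n) (jn Z (chF (F ∪ E)))

lemma Aop_mono {Ψ : Oper} {F : Finset ℕ} {Z : Om} {n m : ℕ} (h : n ≤ m) (E : Finset ℕ) :
    Aop Ψ F Z n E ⊆ Aop Ψ F Z m E := At_mono (by omega) _

lemma Aop_congr {Ψ : Oper} {F : Finset ℕ} {Z Z' : Om} {n : ℕ} (h : agr n Z Z') (E : Finset ℕ) :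
    Aop Ψ F Z n E = Aop Ψ F Z' n E := At_congr (agr_jn h (agr_refl _ _))

/-- `μ` fits into `ν` following the pattern `Q` in the pattern `R` -/
def Fits (R Q : ℕ → ℕ → Bool) (ν μ : Node) : Prop :=
  ∃ ι : ℕ → ℕ, (∀ a a', a < a' → a' < μ.length → ι a < ι a') ∧
    (∀ a, a < μ.length → ι a < ν.length ∧ lo ν (ι a) ≤ lo μ a ∧ lo μ a < hi μ a ∧
      hi μ a ≤ hi ν (ι a) ∧ R (ι a) ν.length = Q a μ.length) ∧
    (∀ a a', a < a' → a' < μ.length → R (ι a) (ι a') = Q a a')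

/-- contexts -/
def Ctx (X : Om) (T : ℕ → ℕ → Bool) (A : ℕ → Finset ℕ → Set Node) (R Q : ℕ → ℕ → Bool)
    (ν : Node) (b : ℕ) (U : Set ℕ) (E : Finset ℕ) (μ : Node) : Prop :=
  (∀ x ∈ E, X x = true ∧ x < b) ∧ (∀ x ∈ U, TrS T (insert x E)) ∧ Fits R Q ν μ ∧
    (μ = [] ∨ μ ∈ A b E)

/-- a set of colour `c` produces an output extending `μ` -/
def Hit {K : Type} (T : ℕ → ℕ → Bool) (A : ℕ → Finset ℕ → Set Node) (b u : ℕ) (U : Set ℕ)
    (χ : ℕ → K) (c : K) (E : Finset ℕ) (μ : Node) : Prop :=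
  ∃ E' : Finset ℕ, (∀ x ∈ E', x ∈ U ∧ χ x = c) ∧ TrS T E' ∧
    ∃ p q, b ≤ p ∧ p < q ∧ q ≤ u ∧ μ ++ [(p, q)] ∈ A u (E ∪ E')

/-- the requirement on one level of a node -/
structure LevelOK (X : Om) (T : ℕ → ℕ → Bool) (A : ℕ → Finset ℕ → Set Node) (R Q : ℕ → ℕ → Bool)
    (m M : ℕ) (ν : Node) (b u : ℕ) (U : Set ℕ) : Prop where
  prev : ∀ i, i < ν.length → hi ν i ≤ b
  lt : b < u
  sub : ∀ x ∈ U, X x = true ∧ b ≤ x ∧ x < u
  ne : U.Nonempty
  hom : ∀ z, z < b → ∀ x ∈ U, ∀ y ∈ U, T z x = T z y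
  bad : ∀ E μ, Ctx X T A R Q ν b U E μ → μ.length ≠ m
  cov : ∀ χ : ℕ → (Fin (M + 1) → Bool), ∃ c, ∀ E μ, Ctx X T A R Q ν b U E μ → μ.length < m →
    Hit T A b u U χ c E μ

lemma Ctx_congr {X X' : Om} {T T' : ℕ → ℕ → Bool} {A A' : ℕ → Finset ℕ → Set Node}
    {R Q : ℕ → ℕ → Bool} {ν : Node} {b u : ℕ} {U : Set ℕ}
    (hbu : b ≤ u) (hU : ∀ x ∈ U, x < u)
    (hX : ∀ x, x < u → X x = X' x) (hT : ∀ x y, x < y → y < u → T x y = T' x y)
    (hA : ∀ E, A b E = A' b E) {E : Finset ℕ} {μ : Node}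
    (h : Ctx X T A R Q ν b U E μ) : Ctx X' T' A' R Q ν b U E μ := by
  obtain ⟨h1, h2, h3, h4⟩ := h
  refine ⟨?_, ?_, h3, ?_⟩
  · intro x hx
    rw [← hX x (by have := (h1 x hx).2; omega)]
    exact h1 x hx
  · intro x hx
    apply TrS_congr _ (h2 x hx)
    intro y hy z hz hyz
    apply hT y z hyz
    rcases Finset.mem_insert.mp hz with h | h
    · rw [h]; exact hU x hx
    · have := (h1 z h).2; omega
  · rw [← hA]; exact h4

lemma Hit_congr {K : Type} {T T' : ℕ → ℕ → Bool} {A A' : ℕ → Finset ℕ → Set Node} {b u : ℕ}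
    {U U' : Set ℕ} {χ χ' : ℕ → K} {c : K} {E : Finset ℕ} {μ : Node}
    (hU : ∀ x ∈ U, x < u) (hUU : ∀ x ∈ U, x ∈ U') (hχ : ∀ x ∈ U, χ x = χ' x)
    (hT : ∀ x y, x < y → y < u → T x y = T' x y)
    (hA : ∀ E, A u E = A' u E) (h : Hit T A b u U χ c E μ) : Hit T' A' b u U' χ' c E μ := by
  obtain ⟨E', h1, h2, p, q, h3, h4, h5, h6⟩ := h
  refine ⟨E', ?_, ?_, p, q, h3, h4, h5, by rw [← hA]; exact h6⟩
  · intro x hx
    exact ⟨hUU x (h1 x hx).1, by rw [← hχ x (h1 x hx).1]; exact (h1 x hx).2⟩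
  · apply TrS_congr _ h2
    intro x _ y hy hxy
    exact hT x y hxy (hU y (h1 y hy).1)

lemma LevelOK_congr {X X' : Om} {T T' : ℕ → ℕ → Bool} {A A' : ℕ → Finset ℕ → Set Node}
    {R Q : ℕ → ℕ → Bool} {m M : ℕ} {ν : Node} {b u : ℕ} {U : Set ℕ}
    (hX : ∀ x, x < u → X x = X' x) (hT : ∀ x y, x < y → y < u → T x y = T' x y)
    (hA : ∀ E, A b E = A' b E) (hA' : ∀ E, A u E = A' u E)
    (h : LevelOK X T A R Q m M ν b u U) : LevelOK X' T' A' R Q m M ν b u U := by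
  have hbu := h.lt
  have hU : ∀ x ∈ U, x < u := fun x hx => (h.sub x hx).2.2
  have hctx : ∀ E μ, Ctx X' T' A' R Q ν b U E μ → Ctx X T A R Q ν b U E μ := by
    intro E μ hc
    exact Ctx_congr hbu.le hU (fun x hx => (hX x hx).symm) (fun x y h1 h2 => (hT x y h1 h2).symm)
      (fun E => (hA E).symm) hc
  refine ⟨h.prev, h.lt, ?_, h.ne, ?_, ?_, ?_⟩
  · intro x hx
    rw [← hX x (hU x hx)]; exact h.sub x hx
  · intro z hz x hx y hy
    have hx1 := h.sub x hx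
    have hy1 := h.sub y hy
    rw [← hT z x (by omega) (hU x hx), ← hT z y (by omega) (hU y hy)]
    exact h.hom z hz x hx y hy
  · intro E μ hc
    exact h.bad E μ (hctx E μ hc)
  · intro χ
    obtain ⟨c, hc⟩ := h.cov χ
    refine ⟨c, fun E μ hctx' hl => ?_⟩
    exact Hit_congr hU (fun _ hx => hx) (fun _ _ => rfl) hT hA' (hc E μ (hctx E μ hctx') hl)

lemma Hit_mono {K : Type} {T : ℕ → ℕ → Bool} {Ψ : Oper} {F : Finset ℕ} {Z : Om} {b u u' : ℕ}
    {U U' : Set ℕ} {χ : ℕ → K} {c : K} {E : Finset ℕ} {μ : Node}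
    (hu : u ≤ u') (hU : U ⊆ U') (h : Hit T (Aop Ψ F Z) b u U χ c E μ) :
    Hit T (Aop Ψ F Z) b u' U' χ c E μ := by
  obtain ⟨E', h1, h2, p, q, h3, h4, h5, h6⟩ := h
  exact ⟨E', fun x hx => ⟨hU (h1 x hx).1, (h1 x hx).2⟩, h2, p, q, h3, h4, h5.trans hu,
    Aop_mono hu _ h6⟩

/-- the raw operator of the Erdos-Moser lemma -/
def Kraw (Ψ : Oper) (F : Finset ℕ) (R Q : ℕ → ℕ → Bool) (m M : ℕ) : Oper := fun W =>
  {ν | ν ≠ [] ∧ ∃ U : ℕ → Set ℕ, ∀ i, i < ν.length →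
    LevelOK (od W) (TZ (ev W)) (Aop Ψ F (ev W)) R Q m M (ν.take i) (lo ν i) (hi ν i) (U i)}

lemma pair_lt_sq {x y L : ℕ} (hx : x < L) (hy : y < L) : Nat.pair x y < L ^ 2 := by
  have h := Nat.pair_lt_max_add_one_sq x y
  have h2 : (max x y + 1) ^ 2 ≤ L ^ 2 := Nat.pow_le_pow_left (by omega) 2
  omega

lemma agr_data {L : ℕ} {W W' : Om} (h : agr (4 * (L + 1) ^ 2) W W') :
    (∀ x, x < L → od W x = od W' x) ∧ (∀ x y, x < y → y < L → TZ (ev W) x y = TZ (ev W') x y) ∧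
      agr L (ev W) (ev W') := by
  have hL : L ≤ (L + 1) ^ 2 := by nlinarith
  refine ⟨?_, ?_, ?_⟩
  · intro x hx
    exact agr_od (n := L) (agr_mono (by omega) h) x hx
  · intro x y hxy hy
    unfold TZ
    have h1 : agr ((L + 1) ^ 2) (od (ev W)) (od (ev W')) := by
      apply agr_od; apply agr_ev
      apply agr_mono _ h; omega
    apply h1
    apply pair_lt_sq <;> omega
  · exact agr_ev (agr_mono (by omega) h)

lemma Kraw_local {Ψ : Oper} {F : Finset ℕ} {R Q : ℕ → ℕ → Bool} {m M : ℕ} {W : Om} {ν : Node}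
    (h : ν ∈ Kraw Ψ F R Q m M W) : ν ∈ ker (Kraw Ψ F R Q m M) W := by
  obtain ⟨hne, U, hU⟩ := h
  set L := (Finset.range ν.length).sup (hi ν) with hL
  have hle : ∀ i, i < ν.length → hi ν i ≤ L := fun i hi' =>
    Finset.le_sup (f := hi ν) (Finset.mem_range.mpr hi')
  refine ⟨4 * (L + 1) ^ 2, fun W' hW' => ⟨hne, U, fun i hi' => ?_⟩⟩
  obtain ⟨h1, h2, h3⟩ := agr_data hW'
  have hlt := (hU i hi').lt
  have hl := hle i hi'
  apply LevelOK_congr _ _ _ _ (hU i hi')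
  · intro x hx; exact h1 x (by omega)
  · intro x y hxy hy; exact h2 x y hxy (by omega)
  · intro E; exact Aop_congr (agr_mono (by omega) h3) E
  · intro E; exact Aop_congr (agr_mono (by omega) h3) E

/-- colouring coded by an oracle -/
def chi (M : ℕ) (P : Om) : ℕ → (Fin (M + 1) → Bool) := fun x j => P (Nat.pair x j.1)

/-- the raw operator giving the class of bad colourings -/
def Draw (Ψ : Oper) (F : Finset ℕ) (𝒳 : Finset (Finset ℕ × Node)) (b M : ℕ) : Oper := fun Y =>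
  {ν | ν = [] ∧ ∃ u : ℕ, ∃ c : Fin (M + 1) → Bool, ∀ κ ∈ 𝒳,
    Hit (TZ (ev (ev Y))) (Aop Ψ F (ev (ev Y))) b u {x | od (ev Y) x = true ∧ b ≤ x ∧ x < u}
      (chi M (od Y)) c κ.1 κ.2}

lemma Draw_local {Ψ : Oper} {F : Finset ℕ} {𝒳 : Finset (Finset ℕ × Node)} {b M : ℕ} {Y : Om}
    (h : [] ∈ Draw Ψ F 𝒳 b M Y) : [] ∈ ker (Draw Ψ F 𝒳 b M) Y := by
  obtain ⟨_, u, c, hc⟩ := h
  refine ⟨8 * (u + M + 2) ^ 2, fun Y' hY' => ⟨rfl, u, c, fun κ hκ => ?_⟩⟩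
  have h0 : agr (4 * (u + 1) ^ 2) (ev Y) (ev Y') := by
    apply agr_ev
    apply agr_mono _ hY'
    have : (u + 1) ^ 2 ≤ (u + M + 2) ^ 2 := Nat.pow_le_pow_left (by omega) 2
    omega
  obtain ⟨h1, h2, h3⟩ := agr_data h0
  have h4 : agr ((u + M + 2) ^ 2) (od Y) (od Y') := by
    apply agr_od
    apply agr_mono _ hY'
    omega
  apply Hit_congr _ _ _ _ _ (hc κ hκ)
  · intro x hx; exact hx.2.2
  · intro x hx
    refine ⟨?_, hx.2⟩
    rw [← h1 x hx.2.2]; exact hx.1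
  · intro x hx
    funext j
    unfold chi
    apply h4
    apply pair_lt_sq
    · have := hx.2.2; omega
    · have := j.2; omega
  · intro x y hxy hy; exact h2 x y hxy hy
  · intro E; exact Aop_congr h3 E

/-- continuous maps -/
def ContM (S : Om → Om) : Prop := ∀ W n, ∃ k, ∀ W', agr k W W' → agr n (S W) (S W')

/-- composition of an operator with a map -/
def cmp (Ψ : Oper) (S : Om → Om) : Oper := fun W => Ψ (S W)

lemma cmp_open {Ψ : Oper} (hΨ : OpenOp Ψ) {S : Om → Om} (hS : ContM S) : OpenOp (cmp Ψ S) := by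
  intro W ν hν
  obtain ⟨n, hn⟩ := hΨ (S W) ν hν
  obtain ⟨k, hk⟩ := hS W n
  exact ⟨k, fun W' hW' => hn _ (hk W' hW')⟩

lemma Good_cmp {𝒞 : Set Oper} {f : ℕ → ℕ → Bool} {g : ℕ → Bool} {W : Om} {S : Om → Om}
    (hS : ∀ Ψ ∈ 𝒞, cmp Ψ S ∈ 𝒞) (h : Good 𝒞 f g W) : Good 𝒞 f g (S W) :=
  fun Ψ hΨ P m hP => h (cmp Ψ S) (hS Ψ hΨ) P m hP

/-- thinning the reservoir to a type -/
def S1 (b : ℕ) (τ : Finset ℕ) : Om → Om := fun W =>
  jn (ev W) (fun x => od W x && decide (b ≤ x ∧ ∀ z, z < b → TZ (ev W) z x = decide (z ∈ τ)))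

lemma S1_cont (b : ℕ) (τ : Finset ℕ) : ContM (S1 b τ) := by
  intro W n
  refine ⟨4 * (b + n + 1) ^ 2, fun W' hW' => ?_⟩
  obtain ⟨h1, h2, h3⟩ := agr_data hW'
  apply agr_jn'
  · exact agr_mono (by omega) h3
  · intro x hx
    beta_reduce
    rw [h1 x (by omega)]
    congr 1
    apply decide_eq_decide.mpr
    constructor
    · rintro ⟨hb, h⟩
      refine ⟨hb, fun z hz => ?_⟩
      rw [← h2 z x (by omega) (by omega)]; exact h z hz
    · rintro ⟨hb, h⟩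
      refine ⟨hb, fun z hz => ?_⟩
      rw [h2 z x (by omega) (by omega)]; exact h z hz

/-- restricting the reservoir to a colour class -/
def S2 (M : ℕ) (c : Fin (M + 1) → Bool) : Om → Om := fun Y =>
  jn (ev (ev Y)) (fun x => od (ev Y) x && decide (chi M (od Y) x = c))

lemma S2_cont (M : ℕ) (c : Fin (M + 1) → Bool) : ContM (S2 M c) := by
  intro Y n
  refine ⟨8 * (n + M + 2) ^ 2, fun Y' hY' => ?_⟩
  have h0 : agr (4 * (n + 1) ^ 2) (ev Y) (ev Y') := by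
    apply agr_ev
    apply agr_mono _ hY'
    have : (n + 1) ^ 2 ≤ (n + M + 2) ^ 2 := Nat.pow_le_pow_left (by omega) 2
    omega
  obtain ⟨h1, h2, h3⟩ := agr_data h0
  have h4 : agr ((n + M + 2) ^ 2) (od Y) (od Y') := by
    apply agr_od
    apply agr_mono _ hY'
    omega
  apply agr_jn' h3
  intro x hx
  have h5 : chi M (od Y) x = chi M (od Y') x := by
    funext j
    unfold chi
    apply h4
    apply pair_lt_sq
    · omega
    · have := j.2; omega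
  beta_reduce
  rw [h1 x hx, h5]

/-- adding the full reservoir -/
def S3 : Om → Om := fun W => jn W (fun _ => true)

lemma S3_cont : ContM S3 := fun _ n => ⟨n, fun _ hW' => agr_jn' hW' (agr_refl _ _)⟩

/-- forgetting the tournament -/
def S4 : Om → Om := fun W => jn (ev (ev W)) (od W)

lemma S4_cont : ContM S4 := fun _ n =>
  ⟨4 * n, fun _ hW' => agr_jn' (agr_ev (agr_ev (agr_mono (by omega) hW')))
    (agr_od (agr_mono (by omega) hW'))⟩

end Pool.Agent.EMP
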