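import Mathlib
import Pool.Agent.EMP.EMDefs

/-!
There is no node of length `M + 1` all of whose levels are in order (product Ramsey).
-/

namespace Pool.Agent.EMP

lemma getD_take' {ν : Node} {i j : ℕ} (h : j < i) : (ν.take i).getD j (0, 0) = ν.getD j (0, 0) := by
  simp [List.getD_eq_getElem?_getD, List.getElem?_take, h]

lemma lo_take {ν : Node} {i j : ℕ} (h : j < i) : lo (ν.take i) j = lo ν j := by
  unfold lo; rw [getD_take' h]

lemma hi_take {ν : Node} {i j : ℕ} (h : j < i) : hi (ν.take i) j = hi ν j := by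
  unfold hi; rw [getD_take' h]

lemma noLong {X : Om} {T : ℕ → ℕ → Bool} {A : ℕ → Finset ℕ → Set Node} {R Q : ℕ → ℕ → Bool}
    {m M : ℕ} {ν : Node} (hA : ∀ n n' E, n ≤ n' → A n E ⊆ A n' E)
    (hR : ∀ V : ℕ → ℕ → Bool, ∃ ι : ℕ → ℕ,
      (∀ a b, a < b → b ≤ m → ι a < ι b) ∧ (∀ a, a ≤ m → ι a ≤ M) ∧
      (∀ a b, a < b → b ≤ m → R (ι a) (ι b) = Q a b) ∧
      (∀ a b c, a < b → b < c → c ≤ m →
        ¬ (V (ι a) (ι b) = V (ι b) (ι c) ∧ V (ι a) (ι b) ≠ V (ι a) (ι c))))
    (U : ℕ → Set ℕ)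
    (hU : ∀ i, i < ν.length → LevelOK X T A R Q m M (ν.take i) (lo ν i) (hi ν i) (U i)) :
    ν.length ≠ M + 1 := by
  classical
  intro hlen
  have hy : ∀ i, ∃ y, i < ν.length → y ∈ U i := by
    intro i
    by_cases h : i < ν.length
    · obtain ⟨y, hy⟩ := (hU i h).ne
      exact ⟨y, fun _ => hy⟩
    · exact ⟨0, fun h' => absurd h' h⟩
  choose y hy using hy
  set χ : ℕ → (Fin (M + 1) → Bool) := fun x j => T x (y j.1) with hχ
  have hc : ∀ i, ∃ c : Fin (M + 1) → Bool, i < ν.length → ∀ E μ,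
      Ctx X T A R Q (ν.take i) (lo ν i) (U i) E μ → μ.length < m →
        Hit T A (lo ν i) (hi ν i) (U i) χ c E μ := by
    intro i
    by_cases h : i < ν.length
    · obtain ⟨c, hc⟩ := (hU i h).cov χ
      exact ⟨c, fun _ => hc⟩
    · exact ⟨fun _ => false, fun h' => absurd h' h⟩
  choose c hc using hc
  set V : ℕ → ℕ → Bool := fun i j => if h : j < M + 1 then c i ⟨j, h⟩ else false with hV
  obtain ⟨ι, hι1, hι2, hι3, hι4⟩ := hR V
  have hιl : ∀ a, a ≤ m → ι a < ν.length := fun a ha => by have := hι2 a ha; omega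
  -- sortedness
  have hsort : ∀ i j, i < j → j < ν.length → hi ν i ≤ lo ν j := by
    intro i j hij hj
    have := (hU j hj).prev i (by rw [List.length_take]; omega)
    rwa [hi_take hij] at this
  -- values of T
  have hval : ∀ i j z x, i < j → j < ν.length → z ∈ U i → χ z = c i → x ∈ U j → T z x = V i j := by
    intro i j z x hij hj hz hzc hx
    have h1 := (hU i (by omega)).sub z hz
    have h2 := hsort i j hij hj
    rw [(hU j hj).hom z (by omega) x hx (y j) (hy j hj)]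
    have h3 : χ z ⟨j, by omega⟩ = c i ⟨j, by omega⟩ := by rw [hzc]
    have hj' : j < M + 1 := by omega
    simp only [hV, hj', dif_pos]
    rw [← h3]
  -- the context from the invariant
  have toCtx : ∀ r, r ≤ m → ∀ (E : Finset ℕ) (μ : Node), μ.length = r →
      (∀ z ∈ E, ∃ a, a < r ∧ z ∈ U (ι a) ∧ χ z = c (ι a)) →
      (∀ a, a < r → ∀ z1 ∈ E, ∀ z2 ∈ E, ∀ z3 ∈ E, z1 ∈ U (ι a) → z2 ∈ U (ι a) → z3 ∈ U (ι a) →
        z1 < z2 → z2 < z3 → ¬ (T z1 z2 = T z2 z3 ∧ T z1 z2 ≠ T z1 z3)) →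
      (μ = [] ∨ ∃ a, a < r ∧ μ ∈ A (hi ν (ι a)) E) →
      (∀ a, a < r → lo ν (ι a) ≤ lo μ a ∧ lo μ a < hi μ a ∧ hi μ a ≤ hi ν (ι a)) →
      Ctx X T A R Q (ν.take (ι r)) (lo ν (ι r)) (U (ι r)) E μ := by
    intro r hr E μ hμ h1 h2 h3 h4
    have hlr := hιl r hr
    refine ⟨?_, ?_, ?_, ?_⟩
    · intro z hz
      obtain ⟨a, ha, hza, _⟩ := h1 z hz
      have h5 := (hU (ι a) (hιl a (by omega))).sub z hza
      have h6 := hsort (ι a) (ι r) (hι1 a r ha hr) hlr
      exact ⟨h5.1, by omega⟩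
    · intro x hx
      have lev : ∀ w ∈ insert x E, ∃ a, a ≤ r ∧ w ∈ U (ι a) ∧ (a < r → χ w = c (ι a) ∧ w ∈ E) ∧
          (a = r → w = x) := by
        intro w hw
        rcases Finset.mem_insert.mp hw with h | h
        · exact ⟨r, le_rfl, by rw [h]; exact hx, fun h' => by omega, fun _ => h⟩
        · obtain ⟨a, ha, hwa, hwc⟩ := h1 w h
          exact ⟨a, by omega, hwa, fun _ => ⟨hwc, h⟩, fun h' => by omega⟩
      have hle : ∀ w w' a a', w < w' → a ≤ r → a' ≤ r → w ∈ U (ι a) → w' ∈ U (ι a') → a ≤ a' := by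
        intro w w' a a' hww ha ha' hw hw'
        by_contra hcon
        push Not at hcon
        have h5 := (hU (ι a) (hιl a (by omega))).sub w hw
        have h6 := (hU (ι a') (hιl a' (by omega))).sub w' hw'
        have h7 := hsort (ι a') (ι a) (hι1 a' a hcon (by omega)) (hιl a (by omega))
        omega
      have hTv : ∀ w w' a a', a < a' → a' ≤ r → w ∈ U (ι a) → χ w = c (ι a) → w' ∈ U (ι a') →
          T w w' = V (ι a) (ι a') := by
        intro w w' a a' haa ha' hw hwc hw'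
        exact hval (ι a) (ι a') w w' (hι1 a a' haa (by omega)) (hιl a' (by omega)) hw hwc hw'
      intro w1 hw1 w2 hw2 w3 hw3 h12 h23
      obtain ⟨a1, ha1, hu1, hc1, he1⟩ := lev w1 hw1
      obtain ⟨a2, ha2, hu2, hc2, he2⟩ := lev w2 hw2
      obtain ⟨a3, ha3, hu3, hc3, he3⟩ := lev w3 hw3
      have hl12 := hle w1 w2 a1 a2 h12 ha1 ha2 hu1 hu2
      have hl23 := hle w2 w3 a2 a3 h23 ha2 ha3 hu2 hu3
      rcases Nat.lt_or_ge a1 a2 with hlt1 | hge1
      · rcases Nat.lt_or_ge a2 a3 with hlt2 | hge2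
        · rw [hTv w1 w2 a1 a2 hlt1 ha2 hu1 (hc1 (by omega)).1 hu2,
            hTv w2 w3 a2 a3 hlt2 ha3 hu2 (hc2 (by omega)).1 hu3,
            hTv w1 w3 a1 a3 (by omega) ha3 hu1 (hc1 (by omega)).1 hu3]
          exact hι4 a1 a2 a3 hlt1 hlt2 (by omega)
        · have : a2 = a3 := by omega
          subst this
          rw [hTv w1 w2 a1 a2 hlt1 ha2 hu1 (hc1 (by omega)).1 hu2,
            hTv w1 w3 a1 a2 hlt1 ha2 hu1 (hc1 (by omega)).1 hu3]
          rintro ⟨_, h⟩; exact h rfl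
      · have : a1 = a2 := by omega
        subst this
        rcases Nat.lt_or_ge a1 a3 with hlt2 | hge2
        · rw [hTv w2 w3 a1 a3 hlt2 ha3 hu2 (hc2 (by omega)).1 hu3,
            hTv w1 w3 a1 a3 hlt2 ha3 hu1 (hc1 (by omega)).1 hu3]
          rintro ⟨h, h'⟩; exact h' h
        · have : a1 = a3 := by omega
          subst this
          rcases Nat.lt_or_ge a1 r with hlt3 | hge3
          · exact h2 a1 hlt3 w1 (hc1 hlt3).2 w2 (hc2 hlt3).2 w3 (hc3 hlt3).2 hu1 hu2 hu3 h12 h23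
          · have h5 := he1 (by omega)
            have h6 := he2 (by omega)
            omega
    · have hlt : (ν.take (ι r)).length = ι r := by rw [List.length_take]; omega
      refine ⟨ι, ?_, ?_, ?_⟩
      · intro a a' haa ha'
        exact hι1 a a' haa (by omega)
      · intro a ha
        rw [hμ] at ha
        have h5 := hι1 a r ha hr
        rw [hlt, lo_take h5, hi_take h5, hμ]
        obtain ⟨h6, h7, h8⟩ := h4 a ha
        exact ⟨h5, h6, h7, h8, hι3 a r ha hr⟩
      · intro a a' haa ha'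
        exact hι3 a a' haa (by omega)
    · rcases h3 with h | ⟨a, ha, h⟩
      · exact Or.inl h
      · right
        exact hA _ _ _ (hsort (ι a) (ι r) (hι1 a r ha hr) hlr) h
  -- the induction
  have main : ∀ r, r ≤ m → ∃ (E : Finset ℕ) (μ : Node), μ.length = r ∧
      (∀ z ∈ E, ∃ a, a < r ∧ z ∈ U (ι a) ∧ χ z = c (ι a)) ∧
      (∀ a, a < r → ∀ z1 ∈ E, ∀ z2 ∈ E, ∀ z3 ∈ E, z1 ∈ U (ι a) → z2 ∈ U (ι a) → z3 ∈ U (ι a) →
        z1 < z2 → z2 < z3 → ¬ (T z1 z2 = T z2 z3 ∧ T z1 z2 ≠ T z1 z3)) ∧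
      (μ = [] ∨ ∃ a, a < r ∧ μ ∈ A (hi ν (ι a)) E) ∧
      (∀ a, a < r → lo ν (ι a) ≤ lo μ a ∧ lo μ a < hi μ a ∧ hi μ a ≤ hi ν (ι a)) := by
    intro r
    induction r with
    | zero =>
      intro _
      refine ⟨∅, [], rfl, ?_, ?_, Or.inl rfl, ?_⟩
      · intro z hz; simp at hz
      · intro a ha; omega
      · intro a ha; omega
    | succ r ih =>
      intro hr
      obtain ⟨E, μ, h0, h1, h2, h3, h4⟩ := ih (by omega)
      have hctx := toCtx r (by omega) E μ h0 h1 h2 h3 h4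
      obtain ⟨E', hE1, hE2, p, q, hp, hpq, hq, hmem⟩ :=
        hc (ι r) (hιl r (by omega)) E μ hctx (by omega)
      -- disjointness of levels
      have hdis : ∀ a a' z, a < a' → a' ≤ m → z ∈ U (ι a) → z ∈ U (ι a') → False := by
        intro a a' z haa ha' hz hz'
        have h5 := (hU (ι a) (hιl a (by omega))).sub z hz
        have h6 := (hU (ι a') (hιl a' (by omega))).sub z hz'
        have h7 := hsort (ι a) (ι a') (hι1 a a' haa ha') (hιl a' ha')
        omega
      refine ⟨E ∪ E', μ ++ [(p, q)], by simp [h0], ?_, ?_, ?_, ?_⟩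
      · intro z hz
        rcases Finset.mem_union.mp hz with h | h
        · obtain ⟨a, ha, h5, h6⟩ := h1 z h
          exact ⟨a, by omega, h5, h6⟩
        · exact ⟨r, by omega, (hE1 z h).1, (hE1 z h).2⟩
      · intro a ha z1 hz1 z2 hz2 z3 hz3 hu1 hu2 hu3 h12 h23
        by_cases har : a < r
        · have hin : ∀ z ∈ E ∪ E', z ∈ U (ι a) → z ∈ E := by
            intro z hz hzu
            rcases Finset.mem_union.mp hz with h | h
            · exact h
            · exact (hdis a r z har (by omega) hzu (hE1 z h).1).elim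
          exact h2 a har z1 (hin z1 hz1 hu1) z2 (hin z2 hz2 hu2) z3 (hin z3 hz3 hu3) hu1 hu2 hu3 h12 h23
        · have har' : a = r := by omega
          subst har'
          have hin : ∀ z ∈ E ∪ E', z ∈ U (ι a) → z ∈ E' := by
            intro z hz hzu
            rcases Finset.mem_union.mp hz with h | h
            · obtain ⟨a', ha', h5, _⟩ := h1 z h
              exact (hdis a' a z ha' (by omega) h5 hzu).elim
            · exact h
          exact hE2 z1 (hin z1 hz1 hu1) z2 (hin z2 hz2 hu2) z3 (hin z3 hz3 hu3) h12 h23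
      · right
        exact ⟨r, by omega, hA _ _ _ le_rfl hmem⟩
      · intro a ha
        by_cases har : a < r
        · rw [lo_append_lt (by omega), hi_append_lt (by omega)]
          exact h4 a har
        · have har' : a = μ.length := by omega
          rw [har', lo_append_eq, hi_append_eq, h0]
          exact ⟨hp, hpq, hq⟩
  obtain ⟨E, μ, h0, h1, h2, h3, h4⟩ := main m le_rfl
  have hctx := toCtx m le_rfl E μ h0 h1 h2 h3 h4
  exact (hU (ι m) (hιl m le_rfl)).bad E μ hctx h0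

end Pool.Agent.EMP
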