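import Mathlib
import Pool.Agent.EMP.NoLong

/-!
The Erdos-Moser lemma: the property is preserved by some solution of each tournament.
-/

namespace Pool.Agent.EMP

/-- closure properties of the class of operators -/
structure Cl (𝒞 : Set Oper) : Prop where
  cnt : 𝒞.Countable
  op : ∀ Ψ ∈ 𝒞, OpenOp Ψ
  w : ∀ Ψ ∈ 𝒞, ∀ D ∈ 𝒞, opW Ψ D ∈ 𝒞
  blk : ∀ Ψ ∈ 𝒞, ∀ D ∈ 𝒞, ∀ N R μ b, opBlock Ψ D N R μ b ∈ 𝒞
  k : ∀ Ψ ∈ 𝒞, ∀ (F : Finset ℕ) (R Q : Finset (ℕ × ℕ)) (m M : ℕ),
    ker (Kraw Ψ F (pat R) (pat Q) m M) ∈ 𝒞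
  d : ∀ Ψ ∈ 𝒞, ∀ (F : Finset ℕ) (𝒳 : Finset (Finset ℕ × Node)) (b M : ℕ),
    ker (Draw Ψ F 𝒳 b M) ∈ 𝒞
  s1 : ∀ Ψ ∈ 𝒞, ∀ b τ, cmp Ψ (S1 b τ) ∈ 𝒞
  s2 : ∀ Ψ ∈ 𝒞, ∀ M c, cmp Ψ (S2 M c) ∈ 𝒞
  s3 : ∀ Ψ ∈ 𝒞, cmp Ψ S3 ∈ 𝒞
  s4 : ∀ Ψ ∈ 𝒞, cmp Ψ S4 ∈ 𝒞

/-- conditions -/
structure EMC (𝒞 : Set Oper) (f : ℕ → ℕ → Bool) (g : ℕ → Bool) (Z : Om) (F : Finset ℕ) (X : Om) :
    Prop where
  a : ∀ z ∈ F, ∀ x, X x = true → z < x
  b : ∀ z ∈ F, ∀ x y, X x = true → X y = true → TZ Z z x = TZ Z z y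
  c : ∀ x, X x = true → TrS (TZ Z) (insert x F)
  d : {x | X x = true}.Infinite
  e : Good 𝒞 f g (jn Z X)

lemma EMC_ext {𝒞 : Set Oper} {f : ℕ → ℕ → Bool} {g : ℕ → Bool} {Z : Om} {F : Finset ℕ} {X : Om}
    (h : EMC 𝒞 f g Z F X) {E : Finset ℕ} (hE : ∀ x ∈ E, X x = true) {X' : Om}
    (hX' : ∀ x, X' x = true → X x = true) (hlt : ∀ z ∈ E, ∀ x, X' x = true → z < x)
    (hb : ∀ z ∈ E, ∀ x y, X' x = true → X' y = true → TZ Z z x = TZ Z z y)
    (hc : ∀ x, X' x = true → TrS (TZ Z) (insert x E)) (hd : {x | X' x = true}.Infinite)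
    (he : Good 𝒞 f g (jn Z X')) : EMC 𝒞 f g Z (F ∪ E) X' := by
  refine ⟨?_, ?_, ?_, hd, he⟩
  · intro z hz x hx
    rcases Finset.mem_union.mp hz with h1 | h1
    · exact h.a z h1 x (hX' x hx)
    · exact hlt z h1 x hx
  · intro z hz x y hx hy
    rcases Finset.mem_union.mp hz with h1 | h1
    · exact h.b z h1 x y (hX' x hx) (hX' y hy)
    · exact hb z h1 x y hx hy
  · intro x hx
    have hmem : ∀ w ∈ insert x (F ∪ E), w ∈ F ∨ (w ∈ insert x E ∧ X w = true) := by
      intro w hw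
      rcases Finset.mem_insert.mp hw with h1 | h1
      · right; exact ⟨Finset.mem_insert.mpr (Or.inl h1), by rw [h1]; exact hX' x hx⟩
      · rcases Finset.mem_union.mp h1 with h2 | h2
        · exact Or.inl h2
        · right; exact ⟨Finset.mem_insert.mpr (Or.inr h2), hE w h2⟩
    intro w1 hw1 w2 hw2 w3 hw3 h12 h23
    rcases hmem w1 hw1 with g1 | g1
    · rcases hmem w2 hw2 with g2 | g2
      · rcases hmem w3 hw3 with g3 | g3
        · exact h.c x (hX' x hx) w1 (Finset.mem_insert_of_mem g1) w2 (Finset.mem_insert_of_mem g2)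
            w3 (Finset.mem_insert_of_mem g3) h12 h23
        · exact h.c w3 g3.2 w1 (Finset.mem_insert_of_mem g1) w2 (Finset.mem_insert_of_mem g2)
            w3 (Finset.mem_insert_self _ _) h12 h23
      · rcases hmem w3 hw3 with g3 | g3
        · have := h.a w3 g3 w2 g2.2; omega
        · rintro ⟨_, h2⟩
          exact h2 (h.b w1 g1 w2 w3 g2.2 g3.2)
    · have hX2 : w2 ∈ insert x E := by
        rcases hmem w2 hw2 with g2 | g2
        · have := h.a w2 g2 w1 g1.2; omega
        · exact g2.1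
      have hX3 : w3 ∈ insert x E := by
        rcases hmem w3 hw3 with g3 | g3
        · have := h.a w3 g3 w1 g1.2; omega
        · exact g3.1
      exact hc x hx w1 g1.1 w2 hX2 w3 hX3 h12 h23

lemma PR_fits {f : ℕ → ℕ → Bool} {g : ℕ → Bool} {R Q : ℕ → ℕ → Bool} {ν μ : Node}
    (h : PR f g R ν) (hf : Fits R Q ν μ) : PR f g Q μ := by
  obtain ⟨ι, h1, h2, h3⟩ := hf
  refine ⟨?_, ?_, ?_, ?_⟩
  · intro i hi; exact (h2 i hi).2.2.1
  · intro i j hij hj
    have a1 := h2 i (by omega)
    have a2 := h2 j hj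
    have a3 := h.sorted (ι i) (ι j) (h1 i j hij hj) a2.1
    omega
  · intro i j hij hj x y hx1 hx2 hy1 hy2
    have a1 := h2 i (by omega)
    have a2 := h2 j hj
    rw [← h3 i j hij hj]
    exact h.look (ι i) (ι j) (h1 i j hij hj) a2.1 x y (by omega) (by omega) (by omega) (by omega)
  · intro i hi x hx1 hx2
    have a1 := h2 i hi
    rw [← a1.2.2.2.2]
    exact h.lim (ι i) a1.1 x (by omega) (by omega)

/-- the grid pattern as a finite set -/
def gridF (n M : ℕ) : Finset (ℕ × ℕ) :=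
  ((Finset.range (M + 2)) ×ˢ (Finset.range (M + 2))).filter (fun p => p.2 % n < p.1 % n)

lemma pat_gridF {n M i j : ℕ} (hi : i ≤ M + 1) (hj : j ≤ M + 1) :
    pat (gridF n M) i j = decide (j % n < i % n) := by
  unfold pat gridF
  apply decide_eq_decide.mpr
  simp only [Finset.mem_filter, Finset.mem_product, Finset.mem_range]
  constructor
  · intro h; exact h.2
  · intro h; exact ⟨⟨by omega, by omega⟩, h⟩

lemma trp_gridF (n M : ℕ) : Trp (pat (gridF n M)) (M + 1) := by
  intro a b c hab hbc hc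
  rw [pat_gridF (by omega) (by omega), pat_gridF (by omega) (by omega), pat_gridF (by omega) (by omega)]
  exact trp_grid n (M + 1) a b c hab hbc hc

lemma finite_ctx (B m : ℕ) (Q : Finset ℕ → Node → Prop) (h : ∀ E μ, Q E μ →
    (∀ x ∈ E, x < B) ∧ μ.length < m ∧ ∀ a, a < μ.length → lo μ a ≤ B ∧ hi μ a ≤ B) :
    {κ : Finset ℕ × Node | Q κ.1 κ.2}.Finite := by
  have h1 : {E : Finset ℕ | E ⊆ Finset.range B}.Finite := by
    apply (Finset.finite_toSet ((Finset.range B).powerset)).subset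
    intro E hE
    exact Finset.mem_coe.mpr (Finset.mem_powerset.mpr hE)
  have h2 : {μ : Node | ∃ l : List (Fin (B + 1) × Fin (B + 1)), l.length < m ∧
      μ = l.map (fun p => ((p.1 : ℕ), (p.2 : ℕ)))}.Finite := by
    have h3 := List.finite_length_lt (Fin (B + 1) × Fin (B + 1)) m
    apply (h3.image (fun l => l.map (fun p => ((p.1 : ℕ), (p.2 : ℕ))))).subset
    rintro μ ⟨l, hl, rfl⟩
    exact ⟨l, hl, rfl⟩
  apply (h1.prod h2).subset
  rintro ⟨E, μ⟩ hQ
  obtain ⟨ha, hb, hc⟩ := h E μ hQ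
  refine ⟨fun x hx => Finset.mem_range.mpr (ha x hx), ?_⟩
  refine ⟨List.ofFn (fun i : Fin μ.length =>
    ((⟨lo μ i, by have := (hc i i.2).1; omega⟩ : Fin (B + 1)),
      (⟨hi μ i, by have := (hc i i.2).2; omega⟩ : Fin (B + 1)))), by simpa using hb, ?_⟩
  apply List.ext_getElem
  · simp
  · intro i hi1 hi2
    simp only [List.getElem_map, List.getElem_ofFn]
    unfold lo hi
    rw [List.getD_eq_getElem _ _ hi1]

lemma em_req {𝒞 : Set Oper} (hC : Cl 𝒞) {f : ℕ → ℕ → Bool} {g : ℕ → Bool} {Z : Om}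
    {F : Finset ℕ} {X : Om} (hcond : EMC 𝒞 f g Z F X) {Ψ : Oper} (hΨ : Ψ ∈ 𝒞)
    (S : Finset (ℕ × ℕ)) (m : ℕ) (hS : Trp (pat S) m) :
    ∃ (F' : Finset ℕ) (X' : Om), EMC 𝒞 f g Z F' X' ∧ F ⊆ F' ∧
      (∀ x ∈ F', x ∈ F ∨ X x = true) ∧ (∀ x, X' x = true → X x = true) ∧
      ∀ G : Om, (∀ x ∈ F', G x = true) → (∀ x, G x = true → x ∈ F' ∨ X' x = true) →
        (∀ E : Finset ℕ, (∀ x ∈ E, G x = true) → TrS (TZ Z) E) →
        Inst f g (jn Z G) Ψ (pat S) m := by
  classical
  obtain ⟨M, n, hR⟩ := pattern_ramsey (pat S) m hS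
  set T := TZ Z with hT
  set A := Aop Ψ F Z with hAdef
  set R := gridF n M with hRdef
  set K := ker (Kraw Ψ F (pat R) (pat S) m M) with hK
  have hI : Inst f g (jn Z X) K (pat R) (M + 1) :=
    hcond.e K (hC.k Ψ hΨ F R S m M) R (M + 1) (trp_gridF n M)
  have hKraw : ∀ ν, ν ∈ K (jn Z X) → ∃ U : ℕ → Set ℕ, ∀ i, i < ν.length →
      LevelOK X T A (pat R) (pat S) m M (ν.take i) (lo ν i) (hi ν i) (U i) := by
    intro ν hν
    obtain ⟨_, U, hU⟩ := ker_sub _ _ hν
    rw [ev_jn, od_jn] at hU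
    exact ⟨U, hU⟩
  -- no long nodes
  have hnolong : ∀ ν, ν ∈ K (jn Z X) → ν.length ≠ M + 1 := by
    intro ν hν
    obtain ⟨U, hU⟩ := hKraw ν hν
    refine noLong (fun n n' E h => Aop_mono h E) ?_ U hU
    intro V
    obtain ⟨ι, h1, h2, h3, h4⟩ := hR V
    refine ⟨ι, h1, h2, ?_, h4⟩
    intro a b hab hb
    have i1 := h2 a (by omega)
    have i2 := h2 b hb
    rw [pat_gridF (by omega) (by omega)]
    exact h3 a b hab hb
  -- a blocked node
  obtain ⟨ν, hνl, hν, hPR, b, hblock⟩ : ∃ ν : Node, ν.length < M + 1 ∧ (ν = [] ∨ ν ∈ K (jn Z X)) ∧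
      PR f g (pat R) ν ∧ ∃ b, ∀ p q, b ≤ p → p < q → ν ++ [(p, q)] ∉ K (jn Z X) := by
    by_contra hcon
    push Not at hcon
    obtain ⟨ν, h1, h2, h3⟩ := hI (fun ν hl hν hPR b => by
      obtain ⟨p, q, h1, h2, h3⟩ := hcon ν hl hν hPR b
      exact ⟨p, q, h1, h2, h3⟩)
    rcases h1 with h | h
    · rw [h] at h2; simp at h2
    · exact hnolong ν h h2
  obtain ⟨U, hU⟩ : ∃ U : ℕ → Set ℕ, ∀ i, i < ν.length →
      LevelOK X T A (pat R) (pat S) m M (ν.take i) (lo ν i) (hi ν i) (U i) := by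
    rcases hν with h | h
    · exact ⟨fun _ => ∅, fun i hi => by rw [h] at hi; simp at hi⟩
    · exact hKraw ν h
  set b' := max b ((Finset.range ν.length).sup (hi ν)) with hb'
  have hb'hi : ∀ i, i < ν.length → hi ν i ≤ b' := by
    intro i hi'
    have : hi ν i ≤ (Finset.range ν.length).sup (hi ν) :=
      Finset.le_sup (f := hi ν) (Finset.mem_range.mpr hi')
    omega
  -- an infinite type
  obtain ⟨τ, hτ⟩ : ∃ τ : Finset ℕ,
      {x | X x = true ∧ b' ≤ x ∧ ∀ z, z < b' → T z x = decide (z ∈ τ)}.Infinite := by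
    by_contra hcon
    push Not at hcon
    apply hcond.d
    have hfin : (⋃ τ ∈ (Finset.range b').powerset,
        {x | X x = true ∧ b' ≤ x ∧ ∀ z, z < b' → T z x = decide (z ∈ τ)}).Finite := by
      apply Set.Finite.biUnion (Finset.finite_toSet _)
      intro τ _
      exact hcon τ
    apply (hfin.union (Set.finite_lt_nat b')).subset
    intro x hx
    by_cases hxb : x < b'
    · exact Or.inr hxb
    · left
      refine Set.mem_biUnion (x := (Finset.range b').filter (fun z => T z x = true)) ?_ ?_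
      · exact Finset.mem_coe.mpr (Finset.mem_powerset.mpr (Finset.filter_subset _ _))
      · refine ⟨hx, by omega, fun z hz => ?_⟩
        simp [hz]
  set Xt : Om := fun x => X x && decide (b' ≤ x ∧ ∀ z, z < b' → T z x = decide (z ∈ τ)) with hXtdef
  have hXt : ∀ x, Xt x = true ↔ (X x = true ∧ b' ≤ x ∧ ∀ z, z < b' → T z x = decide (z ∈ τ)) := by
    intro x; simp [hXtdef]
  have hXtinf : {x | Xt x = true}.Infinite := by
    have : {x | Xt x = true} =
        {x | X x = true ∧ b' ≤ x ∧ ∀ z, z < b' → T z x = decide (z ∈ τ)} := Set.ext hXt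
    rw [this]; exact hτ
  have hGt : Good 𝒞 f g (jn Z Xt) := by
    have h := Good_cmp (S := S1 b' τ) (fun Ψ' hΨ' => hC.s1 Ψ' hΨ' b' τ) hcond.e
    have heq : S1 b' τ (jn Z X) = jn Z Xt := by
      unfold S1; rw [ev_jn, od_jn]
    rw [heq] at h; exact h
  have hTt : ∀ z, z < b' → ∀ x y, Xt x = true → Xt y = true → T z x = T z y := by
    intro z hz x y hx hy
    rw [((hXt x).mp hx).2.2 z hz, ((hXt y).mp hy).2.2 z hz]
  by_cases hcase : ∃ E μ, Ctx X T A (pat R) (pat S) ν b' {x | Xt x = true} E μ ∧ μ.length = m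
  · -- a complete context
    obtain ⟨E, μ, ⟨h1, h2, h3, h4⟩, h5⟩ := hcase
    refine ⟨F ∪ E, Xt, ?_, Finset.subset_union_left, ?_, fun x hx => ((hXt x).mp hx).1, ?_⟩
    · refine EMC_ext hcond (fun x hx => (h1 x hx).1) (fun x hx => ((hXt x).mp hx).1) ?_ ?_ h2 hXtinf hGt
      · intro z hz x hx
        have := (h1 z hz).2; have := ((hXt x).mp hx).2.1; omega
      · intro z hz x y hx hy
        exact hTt z (h1 z hz).2 x y hx hy
    · intro x hx
      rcases Finset.mem_union.mp hx with h | h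
      · exact Or.inl h
      · exact Or.inr (h1 x h).1
    · intro G hG1 hG2 _ _
      refine ⟨μ, ?_, h5, PR_fits hPR h3⟩
      rcases h4 with h | h
      · exact Or.inl h
      · right
        apply h
        apply agr_jn (agr_refl _ _)
        intro i hi'
        by_cases hiF : i ∈ F ∪ E
        · rw [hG1 i hiF]; simp [chF, hiF]
        · have : chF (F ∪ E) i = false := by simp only [chF, hiF, decide_false]
          rw [this]
          cases hGi : G i
          · rfl
          · rcases hG2 i hGi with h' | h'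
            · exact absurd h' hiF
            · have := ((hXt i).mp h').2.1; omega
  · -- no complete context: covering fails
    push Not at hcase
    have hfin : {κ : Finset ℕ × Node | Ctx X T A (pat R) (pat S) ν b' {x | Xt x = true} κ.1 κ.2 ∧
        κ.2.length < m}.Finite := by
      refine finite_ctx b' m (fun E μ => Ctx X T A (pat R) (pat S) ν b' {x | Xt x = true} E μ ∧
        μ.length < m) ?_
      rintro E μ ⟨⟨h1, h2, ⟨ι, h3, h4, h5⟩, h6⟩, h7⟩
      refine ⟨fun x hx => (h1 x hx).2, h7, fun a ha => ?_⟩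
      have h8 := h4 a ha
      have h9 := hb'hi (ι a) h8.1
      omega
    set 𝒳 : Finset (Finset ℕ × Node) := hfin.toFinset with h𝒳
    have hm𝒳 : ∀ κ : Finset ℕ × Node, κ ∈ 𝒳 ↔
        (Ctx X T A (pat R) (pat S) ν b' {x | Xt x = true} κ.1 κ.2 ∧ κ.2.length < m) := by
      intro κ; rw [h𝒳, Set.Finite.mem_toFinset]; rfl
    obtain ⟨x0, hx0⟩ := hXtinf.nonempty
    -- contexts with respect to a part of the type
    have hctx : ∀ u, x0 < u → ∀ E μ,
        Ctx X T A (pat R) (pat S) ν b' {x | Xt x = true ∧ b' ≤ x ∧ x < u} E μ →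
        Ctx X T A (pat R) (pat S) ν b' {x | Xt x = true} E μ := by
      rintro u hu E μ ⟨h1, h2, h3, h4⟩
      refine ⟨h1, ?_, h3, h4⟩
      intro x hx
      have hx0' := h2 x0 ⟨hx0, ((hXt x0).mp hx0).2.1, hu⟩
      intro w1 hw1 w2 hw2 w3 hw3 h12 h23
      -- w1, w2 must be in E
      have hxb := ((hXt x).mp hx).2.1
      have hmem : ∀ w ∈ insert x E, w < x → w ∈ E := by
        intro w hw hwx
        rcases Finset.mem_insert.mp hw with h | h
        · omega
        · exact h
      have hlex : ∀ w ∈ insert x E, w ≤ x := by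
        intro w hw
        rcases Finset.mem_insert.mp hw with h | h
        · omega
        · have := (h1 w h).2; omega
      have hw3x := hlex w3 hw3
      have hE1 := hmem w1 hw1 (by omega)
      have hE2 := hmem w2 hw2 (by omega)
      rcases Finset.mem_insert.mp hw3 with h | h
      · subst h
        have e1 : T w1 w3 = T w1 x0 := hTt w1 (h1 w1 hE1).2 _ _ hx hx0
        have e2 : T w2 w3 = T w2 x0 := hTt w2 (h1 w2 hE2).2 _ _ hx hx0
        rw [e1, e2]
        have hx0b := ((hXt x0).mp hx0).2.1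
        have := (h1 w2 hE2).2
        exact hx0' w1 (Finset.mem_insert_of_mem hE1) w2 (Finset.mem_insert_of_mem hE2) x0
          (Finset.mem_insert_self _ _) h12 (by omega)
      · exact hx0' w1 (Finset.mem_insert_of_mem hE1) w2 (Finset.mem_insert_of_mem hE2) w3
          (Finset.mem_insert_of_mem h) h12 h23
    have hfail : ∀ u, x0 < u → ∃ χ : ℕ → (Fin (M + 1) → Bool), ∀ c, ∃ κ ∈ 𝒳,
        ¬ Hit T A b' u {x | Xt x = true ∧ b' ≤ x ∧ x < u} χ c κ.1 κ.2 := by
      intro u hu
      by_contra hcon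
      push Not at hcon
      have hx0b := ((hXt x0).mp hx0).2.1
      apply hblock b' u (le_max_left _ _) (by omega)
      apply Kraw_local
      refine ⟨by simp, fun i => if i < ν.length then U i else {x | Xt x = true ∧ b' ≤ x ∧ x < u}, ?_⟩
      intro i hi'
      rw [ev_jn, od_jn]
      by_cases hik : i < ν.length
      · simp only [hik, if_true]
        rw [lo_append_lt hik, hi_append_lt hik]
        have : (ν ++ [(b', u)]).take i = ν.take i := by
          rw [List.take_append_of_le_length (by omega)]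
        rw [this]
        exact hU i hik
      · have hik' : i = ν.length := by simp at hi'; omega
        subst hik'
        simp only [lt_irrefl, if_false]
        rw [lo_append_eq, hi_append_eq]
        have : (ν ++ [(b', u)]).take ν.length = ν := by simp
        rw [this]
        refine ⟨hb'hi, by simp only; omega, ?_, ?_, ?_, ?_, ?_⟩
        · intro x hx
          exact ⟨((hXt x).mp hx.1).1, hx.2⟩
        · exact ⟨x0, hx0, hx0b, hu⟩
        · intro z hz x hx y hy
          exact hTt z hz x y hx.1 hy.1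
        · intro E μ hctx'
          exact hcase E μ (hctx u hu E μ hctx')
        · intro χ
          obtain ⟨c, hc⟩ := hcon χ
          refine ⟨c, fun E μ hctx' hl => ?_⟩
          exact hc (E, μ) ((hm𝒳 _).mpr ⟨hctx u hu E μ hctx', hl⟩)
    -- compactness
    have hmono : ∀ n n' (κ : Finset ℕ × Node) (χ : ℕ → (Fin (M + 1) → Bool)) (c : Fin (M + 1) → Bool),
        n ≤ n' → Hit T A b' n {x | Xt x = true ∧ b' ≤ x ∧ x < n} χ c κ.1 κ.2 →
        Hit T A b' n' {x | Xt x = true ∧ b' ≤ x ∧ x < n'} χ c κ.1 κ.2 := by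
      intro n n' κ χ c hnn h
      exact Hit_mono hnn (fun x hx => ⟨hx.1, hx.2.1, by have := hx.2.2; omega⟩) h
    obtain ⟨P0, hP0⟩ : ∃ P : Om, ∀ n, P ∈ {P : Om | ∀ c, ∃ κ ∈ 𝒳,
        ¬ Hit T A b' n {x | Xt x = true ∧ b' ≤ x ∧ x < n} (chi M P) c κ.1 κ.2} := by
      refine compact_inter ?_ ?_ ?_
      · intro n P hP c
        obtain ⟨κ, hκ, h⟩ := hP c
        exact ⟨κ, hκ, fun h' => h (hmono n (n + 1) κ _ c (by omega) h')⟩
      · intro n P hP
        have hP' : ∃ c, ∀ κ ∈ 𝒳,
            Hit T A b' n {x | Xt x = true ∧ b' ≤ x ∧ x < n} (chi M P) c κ.1 κ.2 := by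
          by_contra hcon
          push Not at hcon
          exact hP hcon
        obtain ⟨c, hc⟩ := hP'
        refine ⟨(n + M + 2) ^ 2, fun P' hPP' hcon => ?_⟩
        obtain ⟨κ, hκ, h⟩ := hcon c
        apply h
        apply Hit_congr _ _ _ _ _ (hc κ hκ)
        · intro x hx; exact hx.2.2
        · intro x hx; exact hx
        · intro x hx
          funext j
          unfold chi
          apply hPP'
          apply pair_lt_sq
          · have := hx.2.2; omega
          · have := j.2; omega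
        · intro x y _ _; rfl
        · intro E; rfl
      · intro n
        obtain ⟨χ, hχ⟩ := hfail (max n (x0 + 1)) (by omega)
        refine ⟨fun i => if h : i.unpair.2 < M + 1 then χ i.unpair.1 ⟨i.unpair.2, h⟩ else false, ?_⟩
        intro c
        obtain ⟨κ, hκ, h⟩ := hχ c
        refine ⟨κ, hκ, fun h' => h ?_⟩
        have heq : chi M (fun i => if h : i.unpair.2 < M + 1 then χ i.unpair.1 ⟨i.unpair.2, h⟩
            else false) = χ := by
          funext x j
          unfold chi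
          have hj : (Nat.unpair (Nat.pair x j.1)).2 < M + 1 := by
            rw [Nat.unpair_pair]; exact j.2
          beta_reduce
          rw [dif_pos hj]
          simp only [Nat.unpair_pair]
        rw [heq] at h'
        exact hmono n _ κ χ c (le_max_left _ _) h'
    -- apply the basis lemma
    have hD := hC.d Ψ hΨ F 𝒳 b' M
    obtain ⟨P, hP, hGP⟩ := wkl hC.cnt hC.op hC.w hC.blk hGt hD (by
      refine ⟨P0, fun h => ?_⟩
      obtain ⟨_, u, c, hc⟩ := ker_sub _ _ h
      rw [ev_jn, ev_jn, od_jn, od_jn] at hc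
      obtain ⟨κ, hκ, h⟩ := hP0 u c
      exact h (hc κ hκ))
    have hbad : ∀ u c, ∃ κ ∈ 𝒳,
        ¬ Hit T A b' u {x | Xt x = true ∧ b' ≤ x ∧ x < u} (chi M P) c κ.1 κ.2 := by
      intro u c
      by_contra hcon
      push Not at hcon
      apply hP
      apply Draw_local
      refine ⟨rfl, u, c, ?_⟩
      rw [ev_jn, ev_jn, od_jn, od_jn]
      exact hcon
    -- an infinite colour class
    obtain ⟨c, hc⟩ : ∃ c : Fin (M + 1) → Bool, {x | Xt x = true ∧ chi M P x = c}.Infinite := by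
      by_contra hcon
      push Not at hcon
      apply hXtinf
      have hfin2 : (⋃ c : Fin (M + 1) → Bool, {x | Xt x = true ∧ chi M P x = c}).Finite :=
        Set.finite_iUnion (fun c => hcon c)
      apply hfin2.subset
      intro x hx
      exact Set.mem_iUnion.mpr ⟨chi M P x, hx, rfl⟩
    -- a context without output
    obtain ⟨κ, hκ, hκn⟩ : ∃ κ ∈ 𝒳, ∀ u,
        ¬ Hit T A b' u {x | Xt x = true ∧ b' ≤ x ∧ x < u} (chi M P) c κ.1 κ.2 := by
      by_contra hcon
      push Not at hcon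
      choose! w hw using hcon
      obtain ⟨κ, hκ, h⟩ := hbad (𝒳.sup w) c
      exact h (hmono _ _ κ _ c (Finset.le_sup hκ) (hw κ hκ))
    obtain ⟨⟨h1, h2, h3, h4⟩, h5⟩ := (hm𝒳 κ).mp hκ
    obtain ⟨E, μ⟩ := κ
    simp only at h1 h2 h3 h4 h5 hκn
    set Y0 : Om := fun x => Xt x && decide (chi M P x = c) with hY0def
    have hY0 : ∀ x, Y0 x = true ↔ (Xt x = true ∧ chi M P x = c) := by
      intro x; simp [hY0def]
    have hGY : Good 𝒞 f g (jn Z Y0) := by
      have h := Good_cmp (S := S2 M c) (fun Ψ' hΨ' => hC.s2 Ψ' hΨ' M c) hGP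
      have heq : S2 M c (jn (jn Z Xt) P) = jn Z Y0 := by
        unfold S2; rw [ev_jn, ev_jn, od_jn, od_jn]
      rw [heq] at h; exact h
    refine ⟨F ∪ E, Y0, ?_, Finset.subset_union_left, ?_,
      fun x hx => ((hXt x).mp ((hY0 x).mp hx).1).1, ?_⟩
    · refine EMC_ext hcond (fun x hx => (h1 x hx).1)
        (fun x hx => ((hXt x).mp ((hY0 x).mp hx).1).1) ?_ ?_ ?_ ?_ hGY
      · intro z hz x hx
        have := (h1 z hz).2; have := ((hXt x).mp ((hY0 x).mp hx).1).2.1; omega
      · intro z hz x y hx hy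
        exact hTt z (h1 z hz).2 x y ((hY0 x).mp hx).1 ((hY0 y).mp hy).1
      · intro x hx
        exact h2 x ((hY0 x).mp hx).1
      · have : {x | Y0 x = true} = {x | Xt x = true ∧ chi M P x = c} := Set.ext hY0
        rw [this]; exact hc
    · intro x hx
      rcases Finset.mem_union.mp hx with h | h
      · exact Or.inl h
      · exact Or.inr (h1 x h).1
    · intro G hG1 hG2 hG3 hyp
      exfalso
      have hagr : ∀ i, i < b' → chF (F ∪ E) i = G i := by
        intro i hi'
        by_cases hiF : i ∈ F ∪ E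
        · rw [hG1 i hiF]; simp only [chF, hiF, decide_true]
        · have : chF (F ∪ E) i = false := by simp only [chF, hiF, decide_false]
          rw [this]
          cases hGi : G i
          · rfl
          · rcases hG2 i hGi with h' | h'
            · exact absurd h' hiF
            · have := ((hXt i).mp ((hY0 i).mp h').1).2.1; omega
      have hμ : μ = [] ∨ μ ∈ Ψ (jn Z G) := by
        rcases h4 with h | h
        · exact Or.inl h
        · right
          exact h _ (agr_jn (agr_refl _ _) hagr)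
      obtain ⟨p, q, hp, hpq, hmem⟩ := hyp μ h5 hμ (PR_fits hPR h3) b'
      obtain ⟨N, hN⟩ := exists_At (hC.op Ψ hΨ) hmem
      set u := max N q with hu
      apply hκn u
      refine ⟨(Finset.range u).filter (fun x => Y0 x = true ∧ G x = true), ?_, ?_, p, q, hp, hpq,
        le_max_right _ _, ?_⟩
      · intro x hx
        rw [Finset.mem_filter, Finset.mem_range] at hx
        have := (hY0 x).mp hx.2.1
        exact ⟨⟨this.1, ((hXt x).mp this.1).2.1, hx.1⟩, this.2⟩
      · apply hG3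
        intro x hx
        rw [Finset.mem_filter] at hx
        exact hx.2.2
      · show μ ++ [(p, q)] ∈ At Ψ (2 * u) _
        have hag : agr (2 * u) (jn Z G) (jn Z (chF (F ∪ (E ∪
            (Finset.range u).filter (fun x => Y0 x = true ∧ G x = true))))) := by
          apply agr_jn (agr_refl _ _)
          intro i hi'
          cases hGi : G i
          · symm
            simp only [chF, decide_eq_false_iff_not, Finset.mem_union, Finset.mem_filter, not_or]
            refine ⟨fun h => ?_, fun h => ?_, fun h => ?_⟩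
            · rw [hG1 i (Finset.mem_union_left _ h)] at hGi; simp at hGi
            · rw [hG1 i (Finset.mem_union_right _ h)] at hGi; simp at hGi
            · rw [h.2.2] at hGi; simp at hGi
          · symm
            simp only [chF, decide_eq_true_eq, Finset.mem_union, Finset.mem_filter, Finset.mem_range]
            rcases hG2 i hGi with h | h
            · rcases Finset.mem_union.mp h with h' | h'
              · exact Or.inl h'
              · exact Or.inr (Or.inl h')
            · exact Or.inr (Or.inr ⟨hi', h, hGi⟩)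
        rw [← At_congr hag]
        exact At_mono (by omega) _ hN

lemma em_grow {𝒞 : Set Oper} (hC : Cl 𝒞) {f : ℕ → ℕ → Bool} {g : ℕ → Bool} {Z : Om}
    {F : Finset ℕ} {X : Om} (hcond : EMC 𝒞 f g Z F X) :
    ∃ (x0 : ℕ) (X' : Om), EMC 𝒞 f g Z (F ∪ {x0}) X' ∧ X x0 = true ∧
      (∀ x, X' x = true → X x = true) := by
  classical
  obtain ⟨x0, hx0⟩ := hcond.d.nonempty
  set b' := x0 + 1 with hb'
  obtain ⟨τ, hτ⟩ : ∃ τ : Finset ℕ,
      {x | X x = true ∧ b' ≤ x ∧ ∀ z, z < b' → TZ Z z x = decide (z ∈ τ)}.Infinite := by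
    by_contra hcon
    push Not at hcon
    apply hcond.d
    have hfin : (⋃ τ ∈ (Finset.range b').powerset,
        {x | X x = true ∧ b' ≤ x ∧ ∀ z, z < b' → TZ Z z x = decide (z ∈ τ)}).Finite := by
      apply Set.Finite.biUnion (Finset.finite_toSet _)
      intro τ _
      exact hcon τ
    apply (hfin.union (Set.finite_lt_nat b')).subset
    intro x hx
    by_cases hxb : x < b'
    · exact Or.inr hxb
    · left
      refine Set.mem_biUnion (x := (Finset.range b').filter (fun z => TZ Z z x = true)) ?_ ?_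
      · exact Finset.mem_coe.mpr (Finset.mem_powerset.mpr (Finset.filter_subset _ _))
      · refine ⟨hx, by omega, fun z hz => ?_⟩
        simp [hz]
  set Xt : Om := fun x => X x && decide (b' ≤ x ∧ ∀ z, z < b' → TZ Z z x = decide (z ∈ τ)) with hXtdef
  have hXt : ∀ x, Xt x = true ↔ (X x = true ∧ b' ≤ x ∧ ∀ z, z < b' → TZ Z z x = decide (z ∈ τ)) := by
    intro x; simp [hXtdef]
  have hXtinf : {x | Xt x = true}.Infinite := by
    have : {x | Xt x = true} =
        {x | X x = true ∧ b' ≤ x ∧ ∀ z, z < b' → TZ Z z x = decide (z ∈ τ)} := Set.ext hXt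
    rw [this]; exact hτ
  have hGt : Good 𝒞 f g (jn Z Xt) := by
    have h := Good_cmp (S := S1 b' τ) (fun Ψ' hΨ' => hC.s1 Ψ' hΨ' b' τ) hcond.e
    have heq : S1 b' τ (jn Z X) = jn Z Xt := by
      unfold S1; rw [ev_jn, od_jn]
    rw [heq] at h; exact h
  refine ⟨x0, Xt, ?_, hx0, fun x hx => ((hXt x).mp hx).1⟩
  refine EMC_ext hcond (fun x hx => ?_) (fun x hx => ((hXt x).mp hx).1) ?_ ?_ ?_ hXtinf hGt
  · rw [Finset.mem_singleton] at hx; rw [hx]; exact hx0
  · intro z hz x hx
    rw [Finset.mem_singleton] at hz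
    have := ((hXt x).mp hx).2.1; omega
  · intro z hz x y hx hy
    rw [Finset.mem_singleton] at hz
    rw [((hXt x).mp hx).2.2 z (by omega), ((hXt y).mp hy).2.2 z (by omega)]
  · intro x hx w1 hw1 w2 hw2 w3 hw3 h12 h23
    have := ((hXt x).mp hx).2.1
    simp only [Finset.mem_insert, Finset.mem_singleton] at hw1 hw2 hw3
    omega

/-- The Erdos-Moser lemma. -/
theorem em {𝒞 : Set Oper} (hC : Cl 𝒞) {f : ℕ → ℕ → Bool} {g : ℕ → Bool} {Z : Om}
    (hne : 𝒞.Nonempty) (hG : Good 𝒞 f g Z) :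
    ∃ G : Om, {x | G x = true}.Infinite ∧
      (∀ x y z, x < y → y < z → G x = true → G y = true → G z = true →
        ¬ (TZ Z x y = TZ Z y z ∧ TZ Z x y ≠ TZ Z x z)) ∧ Good 𝒞 f g (jn Z G) := by
  classical
  have hcR : Countable (𝒞 × Finset (ℕ × ℕ) × ℕ) := by
    have : Countable 𝒞 := hC.cnt.to_subtype
    infer_instance
  obtain ⟨Ψ0, hΨ0⟩ := hne
  have : Nonempty (𝒞 × Finset (ℕ × ℕ) × ℕ) := ⟨(⟨Ψ0, hΨ0⟩, ∅, 0)⟩
  obtain ⟨e, he⟩ := exists_surjective_nat (𝒞 × Finset (ℕ × ℕ) × ℕ)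
  let Tp := {p : Finset ℕ × Om // EMC 𝒞 f g Z p.1 p.2}
  have hinit : EMC 𝒞 f g Z ∅ (fun _ => true) := by
    refine ⟨?_, ?_, ?_, ?_, ?_⟩
    · intro z hz; simp at hz
    · intro z hz; simp at hz
    · intro x _ w1 hw1 w2 hw2 w3 hw3 h12 h23
      simp only [Finset.mem_insert, Finset.notMem_empty, or_false] at hw1 hw2 hw3
      omega
    · have : {x : ℕ | (fun _ => true : Om) x = true} = Set.univ := by ext x; simp
      rw [this]; exact Set.infinite_univ
    · exact Good_cmp (S := S3) hC.s3 hG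
  have step : ∀ n : ℕ, ∀ p : Tp, ∃ q : Tp, p.1.1 ⊆ q.1.1 ∧
      (∀ x ∈ q.1.1, x ∈ p.1.1 ∨ p.1.2 x = true) ∧ (∀ x, q.1.2 x = true → p.1.2 x = true) ∧
      (∃ x ∈ q.1.1, p.1.2 x = true) ∧
      (Trp (pat (e n).2.1) (e n).2.2 →
        ∀ G : Om, (∀ x ∈ q.1.1, G x = true) → (∀ x, G x = true → x ∈ q.1.1 ∨ q.1.2 x = true) →
        (∀ E : Finset ℕ, (∀ x ∈ E, G x = true) → TrS (TZ Z) E) →
        Inst f g (jn Z G) (e n).1.1 (pat (e n).2.1) (e n).2.2) := by
    rintro n ⟨⟨F, X⟩, hp⟩
    obtain ⟨x0, X1, h1, h2, h3⟩ := em_grow hC hp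
    by_cases ht : Trp (pat (e n).2.1) (e n).2.2
    · obtain ⟨F', X', g1, g2, g3, g4, g5⟩ := em_req hC h1 (e n).1.2 (e n).2.1 (e n).2.2 ht
      refine ⟨⟨(F', X'), g1⟩, ?_, ?_, ?_, ?_, fun _ => g5⟩
      · exact (Finset.subset_union_left).trans g2
      · intro x hx
        rcases g3 x hx with h | h
        · rcases Finset.mem_union.mp h with h' | h'
          · exact Or.inl h'
          · rw [Finset.mem_singleton] at h'; rw [h']; exact Or.inr h2
        · exact Or.inr (h3 x h)
      · exact fun x hx => h3 x (g4 x hx)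
      · exact ⟨x0, g2 (Finset.mem_union_right _ (Finset.mem_singleton_self _)), h2⟩
    · refine ⟨⟨(F ∪ {x0}, X1), h1⟩, Finset.subset_union_left, ?_, h3, ?_, fun h => absurd h ht⟩
      · intro x hx
        rcases Finset.mem_union.mp hx with h' | h'
        · exact Or.inl h'
        · rw [Finset.mem_singleton] at h'; rw [h']; exact Or.inr h2
      · exact ⟨x0, Finset.mem_union_right _ (Finset.mem_singleton_self _), h2⟩
  choose nxt hn1 hn2 hn3 hn4 hn5 using step
  let c : ℕ → Tp := fun n => Nat.rec ⟨(∅, fun _ => true), hinit⟩ (fun n p => nxt n p) n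
  have hcs : ∀ n, c (n + 1) = nxt n (c n) := fun n => rfl
  have hF1 : ∀ n, (c n).1.1 ⊆ (c (n + 1)).1.1 := fun n => by rw [hcs]; exact hn1 n _
  have hX1 : ∀ n x, (c (n + 1)).1.2 x = true → (c n).1.2 x = true := fun n x => by
    rw [hcs]; exact hn3 n _ x
  have hF : ∀ n k, (c n).1.1 ⊆ (c (n + k)).1.1 := by
    intro n k
    induction k with
    | zero => exact subset_rfl
    | succ k ih => exact ih.trans (hF1 (n + k))
  have hFX : ∀ n k, (∀ x ∈ (c (n + k)).1.1, x ∈ (c n).1.1 ∨ (c n).1.2 x = true) ∧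
      (∀ x, (c (n + k)).1.2 x = true → (c n).1.2 x = true) := by
    intro n k
    induction k with
    | zero => exact ⟨fun x hx => Or.inl hx, fun x hx => hx⟩
    | succ k ih =>
      refine ⟨fun x hx => ?_, fun x hx => ih.2 x (hX1 (n + k) x hx)⟩
      have := hn2 (n + k) (c (n + k)) x (by rw [← hcs]; exact hx)
      rcases this with h | h
      · exact ih.1 x h
      · exact Or.inr (ih.2 x h)
  let G : Om := fun x => decide (∃ n, x ∈ (c n).1.1)
  have hGm : ∀ x, G x = true ↔ ∃ n, x ∈ (c n).1.1 := by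
    intro x; simp [G]
  have hG1 : ∀ n, ∀ x ∈ (c n).1.1, G x = true := fun n x hx => (hGm x).mpr ⟨n, hx⟩
  have hG2 : ∀ n x, G x = true → x ∈ (c n).1.1 ∨ (c n).1.2 x = true := by
    intro n x hx
    obtain ⟨k, hk⟩ := (hGm x).mp hx
    have h1 : x ∈ (c (n + k)).1.1 := by
      have := hF k n hk
      rwa [Nat.add_comm] at this
    exact (hFX n k).1 x h1
  have hfinG : ∀ E : Finset ℕ, (∀ x ∈ E, G x = true) → ∃ n, E ⊆ (c n).1.1 := by
    intro E
    induction E using Finset.induction_on with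
    | empty => intro _; exact ⟨0, Finset.empty_subset _⟩
    | insert a E _ ih =>
      intro h
      obtain ⟨n, hn⟩ := ih (fun x hx => h x (Finset.mem_insert_of_mem hx))
      obtain ⟨k, hk⟩ := (hGm a).mp (h a (Finset.mem_insert_self _ _))
      refine ⟨n + k, ?_⟩
      intro x hx
      rcases Finset.mem_insert.mp hx with h' | h'
      · rw [h']
        have := hF k n hk
        rwa [Nat.add_comm] at this
      · exact hF n k (hn h')
  have hTr : ∀ E : Finset ℕ, (∀ x ∈ E, G x = true) → TrS (TZ Z) E := by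
    intro E hE
    obtain ⟨n, hn⟩ := hfinG E hE
    obtain ⟨x, hx⟩ := (c n).2.d.nonempty
    exact TrS_mono (hn.trans (Finset.subset_insert _ _)) ((c n).2.c x hx)
  refine ⟨G, ?_, ?_, ?_⟩
  · -- infinite
    intro hfin
    have hfin' : ∀ x ∈ hfin.toFinset, G x = true := fun x hx => by
      rw [Set.Finite.mem_toFinset] at hx; exact hx
    obtain ⟨n, hn⟩ := hfinG hfin.toFinset hfin'
    obtain ⟨x, hx1, hx2⟩ := hn4 n (c n)
    have hxG : G x = true := hG1 (n + 1) x (by rw [hcs]; exact hx1)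
    have hxn : x ∈ (c n).1.1 := hn (by rw [Set.Finite.mem_toFinset]; exact hxG)
    have := (c n).2.a x hxn x hx2
    omega
  · intro x y z hxy hyz hx hy hz
    have := hTr {x, y, z} (by
      intro w hw
      simp only [Finset.mem_insert, Finset.mem_singleton] at hw
      rcases hw with h | h | h <;> rw [h] <;> assumption)
    exact this x (by simp) y (by simp) z (by simp) hxy hyz
  · intro Ψ hΨ S m hS
    obtain ⟨n, hn⟩ := he (⟨Ψ, hΨ⟩, S, m)
    have h1 := hn5 n (c n)
    rw [hn] at h1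
    rw [← hcs] at h1
    exact h1 hS G (hG1 (n + 1)) (hG2 (n + 1)) hTr

end Pool.Agent.EMP
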