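import Mathlib
import Pool.Agent.EMP.EM

/-!
Oracle computations: codes, the use principle, and basic reductions.
-/

namespace Pool.Agent.EMP

/-- an oracle as a function in the sense of Mathlib's `RecursiveIn` -/
def orc (Y : Om) : ℕ →. ℕ := fun n => Part.some (if Y n = true then 1 else 0)

lemma orc_inj {A B : Om} (h : orc A = orc B) : A = B := by
  funext n
  have h1 := congrFun h n
  unfold orc at h1
  rw [Part.some_inj] at h1
  cases hA : A n <;> cases hB : B n <;> simp_all

/-- codes of oracle computations -/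
inductive Cd
  | zero | succ | left | right | oracle
  | pair (a b : Cd) | comp (a b : Cd) | prec (a b : Cd) | rfind (a : Cd)
  deriving Countable

/-- evaluation of codes, as a relation between inputs and outputs -/
def Ev (Y : Om) : Cd → ℕ → ℕ → Prop
  | .zero => fun _ v => v = 0
  | .succ => fun n v => v = n + 1
  | .left => fun n v => v = n.unpair.1
  | .right => fun n v => v = n.unpair.2
  | .oracle => fun n v => v = if Y n = true then 1 else 0
  | .pair a b => fun n v => ∃ x y, Ev Y a n x ∧ Ev Y b n y ∧ v = Nat.pair x y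
  | .comp a b => fun n v => ∃ x, Ev Y b n x ∧ Ev Y a x v
  | .prec a b => fun p v =>
      (Nat.rec (motive := fun _ => ℕ → Prop) (fun v => Ev Y a p.unpair.1 v)
        (fun y IH v => ∃ i, IH i ∧ Ev Y b (Nat.pair p.unpair.1 (Nat.pair y i)) v) p.unpair.2) v
  | .rfind a => fun n v => Ev Y a (Nat.pair n v) 0 ∧
      ∀ k, k < v → ∃ w, w ≠ 0 ∧ Ev Y a (Nat.pair n k) w

lemma exists_code {Y : Om} {h : ℕ →. ℕ} (hh : Nat.RecursiveIn {orc Y} h) :
    ∃ c, ∀ n v, v ∈ h n ↔ Ev Y c n v := by
  induction hh with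
  | zero => exact ⟨.zero, fun n v => Part.mem_some_iff⟩
  | succ => exact ⟨.succ, fun n v => Part.mem_some_iff⟩
  | left => exact ⟨.left, fun n v => Part.mem_some_iff⟩
  | right => exact ⟨.right, fun n v => Part.mem_some_iff⟩
  | oracle g hg =>
    refine ⟨.oracle, fun n v => ?_⟩
    rw [Set.mem_singleton_iff.mp hg]
    exact Part.mem_some_iff
  | @pair f h _ _ ih1 ih2 =>
    obtain ⟨a, ha⟩ := ih1
    obtain ⟨b, hb⟩ := ih2
    refine ⟨.pair a b, fun n v => ?_⟩
    change v ∈ Part.bind (Part.map Nat.pair (f n)) (fun y => Part.map y (h n)) ↔ _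
    rw [Part.mem_bind_iff]
    constructor
    · rintro ⟨g, hg, hv⟩
      rw [Part.mem_map_iff] at hg hv
      obtain ⟨x, hx, rfl⟩ := hg
      obtain ⟨y, hy, rfl⟩ := hv
      exact ⟨x, y, (ha n x).mp hx, (hb n y).mp hy, rfl⟩
    · rintro ⟨x, y, hx, hy, rfl⟩
      exact ⟨Nat.pair x, Part.mem_map _ ((ha n x).mpr hx), Part.mem_map _ ((hb n y).mpr hy)⟩
  | @comp f h _ _ ih1 ih2 =>
    obtain ⟨a, ha⟩ := ih1
    obtain ⟨b, hb⟩ := ih2
    refine ⟨.comp a b, fun n v => ?_⟩
    have key : v ∈ Part.bind (h n) f ↔ ∃ x ∈ h n, v ∈ f x := Part.mem_bind_iff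
    refine Iff.trans key ?_
    constructor
    · rintro ⟨x, hx, hv⟩
      exact ⟨x, (hb n x).mp hx, (ha x v).mp hv⟩
    · rintro ⟨x, hx, hv⟩
      exact ⟨x, (hb n x).mpr hx, (ha x v).mpr hv⟩
  | @prec f h _ _ ih1 ih2 =>
    obtain ⟨a, ha⟩ := ih1
    obtain ⟨b, hb⟩ := ih2
    refine ⟨.prec a b, fun p v => ?_⟩
    have aux : ∀ (a' n v : ℕ), v ∈ (Nat.rec (motive := fun _ => Part ℕ) (f a')
        (fun y IH => IH.bind (fun i => h (Nat.pair a' (Nat.pair y i)))) n) ↔
        (Nat.rec (motive := fun _ => ℕ → Prop) (fun v => Ev Y a a' v)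
        (fun y IH v => ∃ i, IH i ∧ Ev Y b (Nat.pair a' (Nat.pair y i)) v) n) v := by
      intro a' n
      induction n with
      | zero => intro v; exact ha a' v
      | succ n ih =>
        intro v
        simp only
        rw [Part.mem_bind_iff]
        constructor
        · rintro ⟨i, hi, hv⟩
          exact ⟨i, (ih i).mp hi, (hb _ v).mp hv⟩
        · rintro ⟨i, hi, hv⟩
          exact ⟨i, (ih i).mpr hi, (hb _ v).mpr hv⟩
    exact aux p.unpair.1 p.unpair.2 v
  | @rfind f _ ih =>
    obtain ⟨a, ha⟩ := ih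
    refine ⟨.rfind a, fun n v => ?_⟩
    have key : v ∈ Nat.rfind (fun k => Part.map (fun m => decide (m = 0)) (f (Nat.pair n k))) ↔
        true ∈ Part.map (fun m => decide (m = 0)) (f (Nat.pair n v)) ∧
        ∀ {k : ℕ}, k < v → false ∈ Part.map (fun m => decide (m = 0)) (f (Nat.pair n k)) :=
      Nat.mem_rfind
    refine Iff.trans key ?_
    constructor
    · rintro ⟨h1, h2⟩
      constructor
      · obtain ⟨w, hw, hw0⟩ := (Part.mem_map_iff _).mp h1
        have : w = 0 := by simpa using hw0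
        rw [this] at hw
        exact (ha _ _).mp hw
      · intro k hk
        obtain ⟨w, hw, hw0⟩ := (Part.mem_map_iff _).mp (h2 hk)
        exact ⟨w, by simpa using hw0, (ha _ _).mp hw⟩
    · rintro ⟨h1, h2⟩
      constructor
      · exact (Part.mem_map_iff _).mpr ⟨0, (ha _ _).mpr h1, by simp⟩
      · intro k hk
        obtain ⟨w, hw0, hw⟩ := h2 k hk
        exact (Part.mem_map_iff _).mpr ⟨w, (ha _ _).mpr hw, by simpa using hw0⟩

/-- use principle -/
lemma Ev_use (c : Cd) : ∀ (Y : Om) (n v : ℕ), Ev Y c n v →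
    ∃ u, ∀ Y', agr u Y Y' → Ev Y' c n v := by
  induction c with
  | zero => intro Y n v hv; exact ⟨0, fun _ _ => hv⟩
  | succ => intro Y n v hv; exact ⟨0, fun _ _ => hv⟩
  | left => intro Y n v hv; exact ⟨0, fun _ _ => hv⟩
  | right => intro Y n v hv; exact ⟨0, fun _ _ => hv⟩
  | oracle =>
    intro Y n v hv
    refine ⟨n + 1, fun Y' hY' => ?_⟩
    unfold Ev at hv ⊢
    rw [← hY' n (by omega)]; exact hv
  | pair a b iha ihb =>
    intro Y n v hv
    obtain ⟨x, y, hx, hy, rfl⟩ := hv
    obtain ⟨u1, h1⟩ := iha Y n x hx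
    obtain ⟨u2, h2⟩ := ihb Y n y hy
    exact ⟨max u1 u2, fun Y' hY' => ⟨x, y, h1 Y' (agr_mono (le_max_left _ _) hY'),
      h2 Y' (agr_mono (le_max_right _ _) hY'), rfl⟩⟩
  | comp a b iha ihb =>
    intro Y n v hv
    obtain ⟨x, hx, hy⟩ := hv
    obtain ⟨u1, h1⟩ := ihb Y n x hx
    obtain ⟨u2, h2⟩ := iha Y x v hy
    exact ⟨max u1 u2, fun Y' hY' => ⟨x, h1 Y' (agr_mono (le_max_left _ _) hY'),
      h2 Y' (agr_mono (le_max_right _ _) hY')⟩⟩
  | prec a b iha ihb =>
    intro Y p v hv
    have aux : ∀ (a' n v : ℕ),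
        (Nat.rec (motive := fun _ => ℕ → Prop) (fun v => Ev Y a a' v)
        (fun y IH v => ∃ i, IH i ∧ Ev Y b (Nat.pair a' (Nat.pair y i)) v) n) v →
        ∃ u, ∀ Y', agr u Y Y' → (Nat.rec (motive := fun _ => ℕ → Prop) (fun v => Ev Y' a a' v)
        (fun y IH v => ∃ i, IH i ∧ Ev Y' b (Nat.pair a' (Nat.pair y i)) v) n) v := by
      intro a' n
      induction n with
      | zero => intro v hv; exact iha Y a' v hv
      | succ n ih =>
        intro v hv
        obtain ⟨i, hi, hv⟩ := hv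
        obtain ⟨u1, h1⟩ := ih i hi
        obtain ⟨u2, h2⟩ := ihb Y _ v hv
        exact ⟨max u1 u2, fun Y' hY' => ⟨i, h1 Y' (agr_mono (le_max_left _ _) hY'),
          h2 Y' (agr_mono (le_max_right _ _) hY')⟩⟩
    exact aux p.unpair.1 p.unpair.2 v hv
  | rfind a iha =>
    intro Y n v hv
    obtain ⟨hv1, hv2⟩ := hv
    obtain ⟨u0, h0⟩ := iha Y _ 0 hv1
    have hall : ∀ k, ∃ u, k < v → ∃ w', w' ≠ 0 ∧ ∀ Y', agr u Y Y' →
        Ev Y' a (Nat.pair n k) w' := by
      intro k
      by_cases hk : k < v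
      · obtain ⟨w', hw'0, hw'⟩ := hv2 k hk
        obtain ⟨u, hu⟩ := iha Y _ w' hw'
        exact ⟨u, fun _ => ⟨w', hw'0, hu⟩⟩
      · exact ⟨0, fun h => absurd h hk⟩
    choose uf huf using hall
    refine ⟨max u0 ((Finset.range v).sup uf), fun Y' hY' =>
      ⟨h0 Y' (agr_mono (le_max_left _ _) hY'), ?_⟩⟩
    intro k hk
    obtain ⟨w', hw'0, hw'⟩ := huf k hk
    refine ⟨w', hw'0, hw' Y' (agr_mono ?_ hY')⟩
    exact le_trans (Finset.le_sup (f := uf) (Finset.mem_range.mpr hk)) (le_max_right _ _)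

/-- Turing reducibility between oracles -/
def TLE (A B : Om) : Prop := Nat.RecursiveIn {orc B} (orc A)

lemma TLE.refl (A : Om) : TLE A A := .oracle _ rfl

lemma TLE.trans {A B C : Om} (h : TLE A B) (h' : TLE B C) : TLE A C :=
  Nat.RecursiveIn.subst h (fun g hg => by rw [Set.mem_singleton_iff.mp hg]; exact h')

lemma recIn_some {O : Set (ℕ →. ℕ)} {F : ℕ → ℕ} (h : Primrec F) :
    Nat.RecursiveIn O (fun n => Part.some (F n)) :=
  Nat.Primrec.recursiveIn (Primrec.nat_iff.mp h)

lemma recIn_comp {O : Set (ℕ →. ℕ)} {A : Om} {F : ℕ → ℕ} (hA : Nat.RecursiveIn O (orc A))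
    (h : Primrec F) : Nat.RecursiveIn O (fun n => Part.some (if A (F n) = true then 1 else 0)) := by
  refine (Nat.RecursiveIn.comp hA (recIn_some h)).of_eq (fun n => ?_)
  have key : Part.bind (Part.some (F n)) (orc A) = orc A (F n) := Part.bind_some _ _
  exact key

lemma TLE_left (A B : Om) : TLE A (jn A B) := by
  have h := recIn_comp (F := fun n => 2 * n) (O := {orc (jn A B)}) (A := jn A B)
    (.oracle _ (Set.mem_singleton _)) (Primrec.nat_mul.comp (Primrec.const 2) Primrec.id)
  refine h.of_eq (fun n => ?_)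
  have : ev (jn A B) n = A n := by rw [ev_jn]
  unfold ev at this
  rw [this]
  rfl

lemma TLE_right (A B : Om) : TLE B (jn A B) := by
  have h := recIn_comp (F := fun n => 2 * n + 1) (O := {orc (jn A B)}) (A := jn A B)
    (.oracle _ (Set.mem_singleton _))
    (Primrec.succ.comp (Primrec.nat_mul.comp (Primrec.const 2) Primrec.id))
  refine h.of_eq (fun n => ?_)
  have : od (jn A B) n = B n := by rw [od_jn]
  unfold od at this
  rw [this]
  rfl

lemma recIn_pair {O : Set (ℕ →. ℕ)} {F G : ℕ → ℕ} (hF : Nat.RecursiveIn O (fun n => Part.some (F n)))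
    (hG : Nat.RecursiveIn O (fun n => Part.some (G n))) :
    Nat.RecursiveIn O (fun n => Part.some (Nat.pair (F n) (G n))) := by
  refine (Nat.RecursiveIn.pair hF hG).of_eq (fun n => ?_)
  change Part.bind (Part.map Nat.pair (Part.some (F n))) (fun y => Part.map y (Part.some (G n))) = _
  rw [Part.map_some, Part.bind_some, Part.map_some]

lemma recIn_comp' {O : Set (ℕ →. ℕ)} {F G : ℕ → ℕ} (hF : Primrec F)
    (hG : Nat.RecursiveIn O (fun n => Part.some (G n))) :
    Nat.RecursiveIn O (fun n => Part.some (F (G n))) := by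
  refine (Nat.RecursiveIn.comp (recIn_some hF) hG).of_eq (fun n => ?_)
  change Part.bind (Part.some (G n)) (fun n => Part.some (F n)) = _
  rw [Part.bind_some]

lemma TLE_jn {A B C : Om} (hA : TLE A C) (hB : TLE B C) : TLE (jn A B) C := by
  have hdiv : Primrec (fun n : ℕ => n / 2) := Primrec.nat_div.comp Primrec.id (Primrec.const 2)
  have h1 := recIn_comp hA hdiv
  have h2 := recIn_comp hB hdiv
  have h3 := recIn_pair h1 h2
  have hid : Nat.RecursiveIn {orc C} (fun n => Part.some (id n)) := recIn_some Primrec.id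
  have h4 := recIn_pair hid h3
  have hF : Primrec (fun k : ℕ => if k.unpair.1 % 2 = 0 then k.unpair.2.unpair.1
      else k.unpair.2.unpair.2) := by
    apply Primrec.ite
    · apply Primrec.eq.comp
      · exact Primrec.nat_mod.comp (Primrec.fst.comp Primrec.unpair) (Primrec.const 2)
      · exact Primrec.const 0
    · exact Primrec.fst.comp (Primrec.unpair.comp (Primrec.snd.comp Primrec.unpair))
    · exact Primrec.snd.comp (Primrec.unpair.comp (Primrec.snd.comp Primrec.unpair))
  refine (recIn_comp' hF h4).of_eq (fun n => ?_)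
  simp only [Nat.unpair_pair, orc, jn, id]
  split <;> rfl

/-- substitution of a Turing functional -/
def opT (Ψ : Oper) (e : Cd) : Oper := fun Y =>
  {ν | ∃ u, ∃ R : Finset ℕ, (∀ i, i < u → Ev Y e i (if i ∈ R then 1 else 0)) ∧
    ν ∈ At Ψ (2 * u) (jn Y (chF R))}

lemma opT_open (Ψ : Oper) (e : Cd) : OpenOp (opT Ψ e) := by
  rintro Y ν ⟨u, R, h1, h2⟩
  have hall : ∀ i, ∃ n, i < u → ∀ Y', agr n Y Y' → Ev Y' e i (if i ∈ R then 1 else 0) := by
    intro i
    by_cases hi : i < u
    · obtain ⟨n, hn⟩ := Ev_use e Y i _ (h1 i hi)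
      exact ⟨n, fun _ => hn⟩
    · exact ⟨0, fun h => absurd h hi⟩
  choose nf hnf using hall
  refine ⟨max u ((Finset.range u).sup nf), fun Y' hY' => ⟨u, R, ?_, ?_⟩⟩
  · intro i hi
    apply hnf i hi
    apply agr_mono _ hY'
    exact le_trans (Finset.le_sup (f := nf) (Finset.mem_range.mpr hi)) (le_max_right _ _)
  · rw [← At_congr (agr_jn (agr_mono (le_max_left _ _) hY') (agr_refl _ _))]
    exact h2

lemma Good_T {𝒞 : Set Oper} (ho : ∀ Ψ ∈ 𝒞, OpenOp Ψ) (hT : ∀ Ψ ∈ 𝒞, ∀ e, opT Ψ e ∈ 𝒞)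
    {f : ℕ → ℕ → Bool} {g : ℕ → Bool} {Y T : Om} (hG : Good 𝒞 f g Y) (h : TLE T Y) :
    Good 𝒞 f g (jn Y T) := by
  obtain ⟨e, he⟩ := exists_code h
  intro Ψ hΨ S m hS
  have heq : opT Ψ e Y = Ψ (jn Y T) := by
    ext ν
    constructor
    · rintro ⟨u, R, h1, h2⟩
      apply h2
      apply agr_jn (agr_refl _ _)
      intro i hi
      have h3 := (he i _).mpr (h1 i hi)
      unfold orc at h3
      rw [Part.mem_some_iff] at h3
      by_cases hiR : i ∈ R
      · simp only [hiR, if_true] at h3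
        simp only [chF, hiR, decide_true]
        cases hTi : T i
        · rw [hTi] at h3; simp at h3
        · rfl
      · simp only [hiR, if_false] at h3
        simp only [chF, hiR, decide_false]
        cases hTi : T i
        · rfl
        · rw [hTi] at h3; simp at h3
    · intro hν
      obtain ⟨n, hn⟩ := exists_At (ho Ψ hΨ) hν
      refine ⟨n, (Finset.range n).filter (fun i => T i = true), ?_, ?_⟩
      · intro i hi
        apply (he i _).mp
        unfold orc
        rw [Part.mem_some_iff]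
        simp [hi]
      · rw [← At_congr (W := jn Y T)]
        · exact At_mono (by omega) _ hn
        · apply agr_jn (agr_refl _ _)
          intro i hi
          simp [chF, hi]
  have h1 := hG (opT Ψ e) (hT Ψ hΨ e) S m hS
  unfold Inst at h1 ⊢
  rw [heq] at h1
  exact h1

/-- singletons from the odd part of the oracle -/
def opH : Oper := fun Y => {ν | ∀ p ∈ ν, p.2 = p.1 + 1 ∧ od Y p.1 = true}

lemma opH_open : OpenOp opH := by
  intro Y ν
  induction ν with
  | nil => intro _; exact ⟨0, fun _ _ p hp => by simp at hp⟩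
  | cons a ν ih =>
    intro h
    obtain ⟨n, hn⟩ := ih (fun p hp => h p (List.mem_cons_of_mem _ hp))
    refine ⟨max n (2 * a.1 + 2), fun Y' hY' p hp => ?_⟩
    rcases List.mem_cons.mp hp with h' | h'
    · rw [h']
      have h1 := h a List.mem_cons_self
      refine ⟨h1.1, ?_⟩
      have : od Y' a.1 = od Y a.1 := (hY' (2 * a.1 + 1) (by omega)).symm
      rw [this]; exact h1.2
    · exact hn Y' (agr_mono (le_max_left _ _) hY') p h'

end Pool.Agent.EMP
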