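import Mathlib
import Pool.Agent.EMP.Oracle

/-!
A countable class of open operators with all the closure properties.
-/

namespace Pool.Agent.EMP

/-- levels of the closure -/
def lev {ι : Type} (ops : ι → Oper → Oper → Oper) (base : Oper) : ℕ → Set Oper
  | 0 => {base}
  | n + 1 => lev ops base n ∪
      (fun t : ι × Oper × Oper => ops t.1 t.2.1 t.2.2) '' {t | t.2.1 ∈ lev ops base n ∧ t.2.2 ∈ lev ops base n}

lemma exists_closure {ι : Type} [Countable ι] (ops : ι → Oper → Oper → Oper) (base : Oper)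
    (hbase : OpenOp base) (hops : ∀ i a b, OpenOp a → OpenOp b → OpenOp (ops i a b)) :
    ∃ 𝒞 : Set Oper, 𝒞.Countable ∧ base ∈ 𝒞 ∧ (∀ Ψ ∈ 𝒞, OpenOp Ψ) ∧
      ∀ i, ∀ a ∈ 𝒞, ∀ b ∈ 𝒞, ops i a b ∈ 𝒞 := by
  have hmono : ∀ n m, n ≤ m → lev ops base n ⊆ lev ops base m := by
    intro n m h
    induction h with
    | refl => exact subset_rfl
    | step _ ih => exact ih.trans Set.subset_union_left
  refine ⟨⋃ n, lev ops base n, ?_, ?_, ?_, ?_⟩
  · apply Set.countable_iUnion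
    intro n
    induction n with
    | zero => exact Set.countable_singleton _
    | succ n ih =>
      apply Set.Countable.union ih
      apply Set.Countable.image
      have : {t : ι × Oper × Oper | t.2.1 ∈ lev ops base n ∧ t.2.2 ∈ lev ops base n} =
          Set.univ ×ˢ (lev ops base n ×ˢ lev ops base n) := by
        ext t; simp
      rw [this]
      exact (Set.countable_univ).prod (ih.prod ih)
  · exact Set.mem_iUnion.mpr ⟨0, rfl⟩
  · intro Ψ hΨ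
    obtain ⟨n, hn⟩ := Set.mem_iUnion.mp hΨ
    clear hΨ
    induction n generalizing Ψ with
    | zero => rw [Set.mem_singleton_iff.mp hn]; exact hbase
    | succ n ih =>
      rcases hn with h | ⟨t, ⟨h1, h2⟩, rfl⟩
      · exact ih Ψ h
      · exact hops _ _ _ (ih _ h1) (ih _ h2)
  · intro i a ha b hb
    obtain ⟨n, hn⟩ := Set.mem_iUnion.mp ha
    obtain ⟨m, hm⟩ := Set.mem_iUnion.mp hb
    refine Set.mem_iUnion.mpr ⟨max n m + 1, Or.inr ⟨(i, a, b), ⟨?_, ?_⟩, rfl⟩⟩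
    · exact hmono _ _ (le_max_left _ _) hn
    · exact hmono _ _ (le_max_right _ _) hm

/-- index type of the closure operations -/
abbrev Ix : Type :=
  Unit ⊕ (ℕ × Finset ℕ × Node × ℕ) ⊕
  (Finset ℕ × Finset (ℕ × ℕ) × Finset (ℕ × ℕ) × ℕ × ℕ) ⊕
  (Finset ℕ × Finset (Finset ℕ × Node) × ℕ × ℕ) ⊕
  (ℕ × Finset ℕ) ⊕ (Σ M : ℕ, Fin (M + 1) → Bool) ⊕ Unit ⊕ Unit ⊕ Cd

/-- the closure operations -/
def allOps : Ix → Oper → Oper → Oper
  | .inl _ => fun a b => opW a b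
  | .inr (.inl (N, R, μ, b')) => fun a b => opBlock a b N R μ b'
  | .inr (.inr (.inl (F, R, Q, m, M))) => fun a _ => ker (Kraw a F (pat R) (pat Q) m M)
  | .inr (.inr (.inr (.inl (F, 𝒳, b', M)))) => fun a _ => ker (Draw a F 𝒳 b' M)
  | .inr (.inr (.inr (.inr (.inl (b', τ))))) => fun a _ => cmp a (S1 b' τ)
  | .inr (.inr (.inr (.inr (.inr (.inl ⟨M, c⟩))))) => fun a _ => cmp a (S2 M c)
  | .inr (.inr (.inr (.inr (.inr (.inr (.inl _)))))) => fun a _ => cmp a S3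
  | .inr (.inr (.inr (.inr (.inr (.inr (.inr (.inl _))))))) => fun a _ => cmp a S4
  | .inr (.inr (.inr (.inr (.inr (.inr (.inr (.inr e))))))) => fun a _ => opT a e

theorem exists_class : ∃ 𝒞 : Set Oper, Cl 𝒞 ∧ opH ∈ 𝒞 ∧ ∀ Ψ ∈ 𝒞, ∀ e, opT Ψ e ∈ 𝒞 := by
  obtain ⟨𝒞, h1, h2, h3, h4⟩ := exists_closure allOps opH opH_open (by
    intro i a b ha hb
    match i with
    | .inl _ => exact opW_open a b
    | .inr (.inl (N, R, μ, b')) => exact opBlock_open ha hb N R μ b'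
    | .inr (.inr (.inl (F, R, Q, m, M))) => exact ker_open _
    | .inr (.inr (.inr (.inl (F, 𝒳, b', M)))) => exact ker_open _
    | .inr (.inr (.inr (.inr (.inl (b', τ))))) => exact cmp_open ha (S1_cont b' τ)
    | .inr (.inr (.inr (.inr (.inr (.inl ⟨M, c⟩))))) => exact cmp_open ha (S2_cont M c)
    | .inr (.inr (.inr (.inr (.inr (.inr (.inl _)))))) => exact cmp_open ha S3_cont
    | .inr (.inr (.inr (.inr (.inr (.inr (.inr (.inl _))))))) => exact cmp_open ha S4_cont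
    | .inr (.inr (.inr (.inr (.inr (.inr (.inr (.inr e))))))) => exact opT_open a e)
  refine ⟨𝒞, ⟨h1, h3, ?_, ?_, ?_, ?_, ?_, ?_, ?_, ?_⟩, h2, ?_⟩
  · exact fun Ψ hΨ D hD => h4 (.inl ()) Ψ hΨ D hD
  · exact fun Ψ hΨ D hD N R μ b => h4 (.inr (.inl (N, R, μ, b))) Ψ hΨ D hD
  · exact fun Ψ hΨ F R Q m M => h4 (.inr (.inr (.inl (F, R, Q, m, M)))) Ψ hΨ Ψ hΨ
  · exact fun Ψ hΨ F 𝒳 b M => h4 (.inr (.inr (.inr (.inl (F, 𝒳, b, M))))) Ψ hΨ Ψ hΨ
  · exact fun Ψ hΨ b τ => h4 (.inr (.inr (.inr (.inr (.inl (b, τ)))))) Ψ hΨ Ψ hΨ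
  · exact fun Ψ hΨ M c => h4 (.inr (.inr (.inr (.inr (.inr (.inl ⟨M, c⟩)))))) Ψ hΨ Ψ hΨ
  · exact fun Ψ hΨ => h4 (.inr (.inr (.inr (.inr (.inr (.inr (.inl ()))))))) Ψ hΨ Ψ hΨ
  · exact fun Ψ hΨ => h4 (.inr (.inr (.inr (.inr (.inr (.inr (.inr (.inl ())))))))) Ψ hΨ Ψ hΨ
  · exact fun Ψ hΨ e => h4 (.inr (.inr (.inr (.inr (.inr (.inr (.inr (.inr e)))))))) Ψ hΨ Ψ hΨ

end Pool.Agent.EMP
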