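import Mathlib
import Pool.Agent.EMP.Basic

/-!
A generic stable colouring has the property.
-/

namespace Pool.Agent.EMP

/-- forcing conditions: a colouring of the pairs below `s` and promised limits -/
structure Cnd where
  s : ℕ
  f : ℕ → ℕ → Bool
  g : ℕ → Bool

/-- `(f, g)` is a completion of `p` -/
def Compl (p : Cnd) (f : ℕ → ℕ → Bool) (g : ℕ → Bool) : Prop :=
  (∀ x y, x < y → y < p.s → f x y = p.f x y) ∧ (∀ x y, x < p.s → p.s ≤ y → f x y = p.g x) ∧
    ∀ x, x < p.s → g x = p.g x

lemma compl_self (p : Cnd) : Compl p (fun x y => if y < p.s then p.f x y else p.g x) p.g := by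
  refine ⟨?_, ?_, ?_⟩
  · intro x y _ h; simp [h]
  · intro x y _ h
    have : ¬ y < p.s := by omega
    simp [this]
  · intro x _; rfl

/-- extension of conditions -/
def Ext (p q : Cnd) : Prop := p.s ≤ q.s ∧ ∀ f g, Compl q f g → Compl p f g

lemma Ext.refl (p : Cnd) : Ext p p := ⟨le_rfl, fun _ _ h => h⟩
lemma Ext.trans {p q r : Cnd} (h : Ext p q) (h' : Ext q r) : Ext p r :=
  ⟨h.1.trans h'.1, fun f g hf => h.2 f g (h'.2 f g hf)⟩

lemma ext_grow (p : Cnd) : ∃ q, Ext p q ∧ p.s < q.s := by
  refine ⟨⟨p.s + 1, fun x y => if y < p.s then p.f x y else p.g x,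
    fun x => if x < p.s then p.g x else false⟩, ⟨by simp, ?_⟩, by simp⟩
  rintro f g ⟨h1, h2, h3⟩
  simp only at h1 h2 h3
  refine ⟨?_, ?_, ?_⟩
  · intro x y hxy hy
    rw [h1 x y hxy (by omega)]; simp [hy]
  · intro x y hx hy
    by_cases hy' : y = p.s
    · subst hy'
      rw [h1 x p.s hx (by omega)]; simp
    · rw [h2 x y (by omega) (by omega)]; simp [hx]
  · intro x hx
    rw [h3 x (by omega)]; simp [hx]

/-- the intermediate stage of the construction in `ground_step` -/
structure Stg (p : Cnd) (Ψ : Oper) (P : ℕ → ℕ → Bool) (k : ℕ) (s : ℕ) (fk : ℕ → ℕ → Bool)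
    (reg : ℕ → ℕ) (ν : Node) : Prop where
  le : p.s ≤ s
  len : ν.length = k
  a : ∀ x y, x < y → y < p.s → fk x y = p.f x y
  b : ∀ x y, x < p.s → p.s ≤ y → y < s → fk x y = p.g x
  c : ∀ x, p.s ≤ x → x < s → reg x < k
  d : ∀ x y, p.s ≤ x → x < y → y < s → reg x < reg y → fk x y = P (reg x) (reg y)
  e : ∀ i, i < k → p.s ≤ lo ν i ∧ lo ν i < hi ν i ∧ hi ν i ≤ s ∧
    ∀ x, lo ν i ≤ x → x < hi ν i → reg x = i
  f : ∀ i j, i < j → j < k → hi ν i ≤ lo ν j
  g : ∀ f', (∀ x y, x < y → y < s → f' x y = fk x y) → (ν = [] ∨ ν ∈ Ψ (code f'))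

lemma ground_step {Ψ : Oper} (hΨ : OpenOp Ψ) (P : ℕ → ℕ → Bool) (m : ℕ) (p : Cnd) :
    ∃ q, Ext p q ∧ ∀ f g, Compl q f g → Inst f g (code f) Ψ P m := by
  classical
  -- from a stage we get a condition
  have key : ∀ k s fk reg ν, Stg p Ψ P k s fk reg ν →
      Ext p ⟨s, fk, fun x => if x < p.s then p.g x else P (reg x) k⟩ ∧
      ∀ f g, Compl ⟨s, fk, fun x => if x < p.s then p.g x else P (reg x) k⟩ f g →
        (ν = [] ∨ ν ∈ Ψ (code f)) ∧ PR f g P ν := by
    intro k s fk reg ν h
    refine ⟨⟨h.le, ?_⟩, ?_⟩
    · rintro f g ⟨h1, h2, h3⟩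
      simp only at h1 h2 h3
      refine ⟨?_, ?_, ?_⟩
      · intro x y hxy hy
        rw [h1 x y hxy (by have := h.le; omega), h.a x y hxy hy]
      · intro x y hx hy
        by_cases hy' : y < s
        · rw [h1 x y (by omega) hy', h.b x y hx hy hy']
        · rw [h2 x y (by have := h.le; omega) (by omega)]; simp [hx]
      · intro x hx
        rw [h3 x (by have := h.le; omega)]; simp [hx]
    · rintro f g ⟨h1, h2, h3⟩
      simp only at h1 h2 h3
      refine ⟨h.g f (fun x y hxy hy => h1 x y hxy hy), ?_, ?_, ?_, ?_⟩
      · intro i hi; exact (h.e i (by rw [← h.len]; exact hi)).2.1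
      · intro i j hij hj; exact h.f i j hij (by rw [← h.len]; exact hj)
      · intro i j hij hj x y hx1 hx2 hy1 hy2
        have hj' : j < k := by rw [← h.len]; exact hj
        obtain ⟨a1, a2, a3, a4⟩ := h.e i (by omega)
        obtain ⟨b1, b2, b3, b4⟩ := h.e j hj'
        have hs := h.f i j hij hj'
        have hrx := a4 x hx1 hx2
        have hry := b4 y hy1 hy2
        rw [h1 x y (by omega) (by omega), h.d x y (by omega) (by omega) (by omega) (by omega), hrx, hry]
      · intro i hi x hx1 hx2
        have hi' : i < k := by rw [← h.len]; exact hi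
        obtain ⟨a1, a2, a3, a4⟩ := h.e i hi'
        have : ¬ x < p.s := by omega
        rw [h3 x (by omega), a4 x hx1 hx2, h.len]
        simp [this]
  have main : ∀ k, k ≤ m → (∃ q, Ext p q ∧ ∀ f g, Compl q f g → Inst f g (code f) Ψ P m) ∨
      ∃ s fk reg ν, Stg p Ψ P k s fk reg ν := by
    intro k
    induction k with
    | zero =>
      intro _
      right
      refine ⟨p.s, p.f, fun _ => 0, [], ?_⟩
      constructor
      · exact le_rfl
      · rfl
      · intro x y _ _; rfl
      · intro x y _ _ _; omega
      · intro x _ _; omega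
      · intro x y _ _ _; omega
      · intro i hi; omega
      · intro i j _ hj; omega
      · intro f' _; left; rfl
    | succ k ih =>
      intro hk
      rcases ih (by omega) with hq | ⟨s, fk, reg, ν, h⟩
      · left; exact hq
      · obtain ⟨hext, hcompl⟩ := key k s fk reg ν h
        by_cases hchild : ∃ f' g', Compl ⟨s, fk, fun x => if x < p.s then p.g x else P (reg x) k⟩ f' g' ∧
            ∃ p' q', s ≤ p' ∧ p' < q' ∧ ν ++ [(p', q')] ∈ Ψ (code f')
        · right
          obtain ⟨f', g', ⟨hc1, hc2, hc3⟩, p', q', hp', hpq, hmem⟩ := hchild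
          simp only at hc1 hc2 hc3
          obtain ⟨n, hn⟩ := hΨ _ _ hmem
          refine ⟨max (max n q') s, f', fun x => if x < s then reg x else k, ν ++ [(p', q')], ?_⟩
          constructor
          · have := h.le; omega
          · simp [h.len]
          · intro x y hxy hy
            rw [hc1 x y hxy (by have := h.le; omega), h.a x y hxy hy]
          · intro x y hx hy hy2
            by_cases hy' : y < s
            · rw [hc1 x y (by omega) hy', h.b x y hx hy hy']
            · rw [hc2 x y (by have := h.le; omega) (by omega)]; simp [hx]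
          · intro x hx hx2
            by_cases hxs : x < s
            · simp only [hxs, if_true]
              have := h.c x hx hxs; omega
            · simp [hxs]
          · intro x y hx hxy hy hr
            by_cases hys : y < s
            · have hxs : x < s := by omega
              simp only [hxs, hys, if_true] at hr ⊢
              rw [hc1 x y hxy hys, h.d x y hx hxy hys hr]
            · by_cases hxs : x < s
              · simp only [hxs, hys, if_true, if_false] at hr ⊢
                have : ¬ x < p.s := by omega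
                rw [hc2 x y hxs (by omega)]
                simp [this]
              · simp only [hxs, hys, if_false] at hr
                omega
          · intro i hi
            by_cases hik : i < k
            · obtain ⟨a1, a2, a3, a4⟩ := h.e i hik
              have hl : i < ν.length := by rw [h.len]; exact hik
              rw [lo_append_lt hl, hi_append_lt hl]
              refine ⟨a1, a2, by omega, ?_⟩
              intro x hx1 hx2
              have hxs : x < s := by omega
              simp only [hxs, if_true]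
              exact a4 x hx1 hx2
            · have hik' : i = ν.length := by rw [h.len]; omega
              subst hik'
              rw [lo_append_eq, hi_append_eq]
              refine ⟨by have := h.le; simp only; omega, hpq, by simp only; omega, ?_⟩
              intro x hx1 hx2
              simp only at hx1 hx2
              have hxs : ¬ x < s := by omega
              simp only [hxs, if_false]
              exact h.len.symm
          · intro i j hij hj
            by_cases hjk : j < k
            · have hl : j < ν.length := by rw [h.len]; exact hjk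
              rw [lo_append_lt hl, hi_append_lt (by omega)]
              exact h.f i j hij hjk
            · have hj' : j = ν.length := by rw [h.len]; omega
              subst hj'
              rw [lo_append_eq, hi_append_lt hij]
              have := (h.e i (by rw [← h.len]; exact hij)).2.2.1
              simp only; omega
          · intro f'' hf''
            right
            apply hn
            apply agr_mono (m := max (max n q') s) (by omega)
            apply code_agr
            intro x y hxy hy
            exact (hf'' x y hxy hy).symm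
        · left
          refine ⟨_, hext, fun f g hfg => ?_⟩
          intro hyp
          exfalso
          obtain ⟨h1, h2⟩ := hcompl f g hfg
          obtain ⟨p', q', hp', hpq, hmem⟩ := hyp ν (by rw [h.len]; omega) h1 h2 s
          exact hchild ⟨f, g, hfg, p', q', hp', hpq, hmem⟩
  rcases main m le_rfl with hq | ⟨s, fk, reg, ν, h⟩
  · exact hq
  · obtain ⟨hext, hcompl⟩ := key m s fk reg ν h
    refine ⟨_, hext, fun f g hfg _ => ?_⟩
    obtain ⟨h1, h2⟩ := hcompl f g hfg
    exact ⟨ν, h1, h.len, h2⟩

/-- ground lemma: a generic stable colouring -/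
theorem ground {𝒞 : Set Oper} (hc : 𝒞.Countable) (ho : ∀ Ψ ∈ 𝒞, OpenOp Ψ) :
    ∃ (f : ℕ → ℕ → Bool) (g : ℕ → Bool), (∀ x, ∃ N, ∀ y, N ≤ y → f x y = g x) ∧
      Good 𝒞 f g (code f) := by
  classical
  -- enumeration of the requirements
  have hcR : Countable (𝒞 × Finset (ℕ × ℕ) × ℕ) := by
    have : Countable 𝒞 := hc.to_subtype
    infer_instance
  by_cases hne : Nonempty (𝒞 × Finset (ℕ × ℕ) × ℕ)
  swap
  · refine ⟨fun _ _ => false, fun _ => false, fun x => ⟨0, fun _ _ => rfl⟩, ?_⟩
    intro Ψ hΨ S m _
    exact absurd ⟨(⟨Ψ, hΨ⟩, S, m)⟩ hne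
  obtain ⟨e, he⟩ := exists_surjective_nat (𝒞 × Finset (ℕ × ℕ) × ℕ)
  have step : ∀ n : ℕ, ∀ p : Cnd, ∃ q, Ext p q ∧ p.s < q.s ∧
      ∀ f g, Compl q f g → Inst f g (code f) (e n).1.1 (pat (e n).2.1) (e n).2.2 := by
    intro n p
    obtain ⟨q, hq1, hq2⟩ := ext_grow p
    obtain ⟨r, hr1, hr2⟩ := ground_step (ho _ (e n).1.2) (pat (e n).2.1) (e n).2.2 q
    exact ⟨r, hq1.trans hr1, lt_of_lt_of_le hq2 hr1.1, hr2⟩
  choose nxt hn1 hn2 hn3 using step
  let c : ℕ → Cnd := fun n => Nat.rec ⟨0, fun _ _ => false, fun _ => false⟩ (fun n p => nxt n p) n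
  have hcs : ∀ n, c (n + 1) = nxt n (c n) := fun n => rfl
  have hext1 : ∀ n, Ext (c n) (c (n + 1)) := fun n => by rw [hcs]; exact hn1 n _
  have hext : ∀ n k, Ext (c n) (c (n + k)) := by
    intro n k
    induction k with
    | zero => exact Ext.refl _
    | succ k ih => exact ih.trans (hext1 (n + k))
  have hs : ∀ n, n ≤ (c n).s := by
    intro n
    induction n with
    | zero => exact Nat.zero_le _
    | succ n ih =>
      have := hn2 n (c n)
      rw [← hcs] at this
      omega
  let f : ℕ → ℕ → Bool := fun x y => (c (y + 1)).f x y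
  let g : ℕ → Bool := fun x => (c (x + 1)).g x
  have hfg : ∀ n, Compl (c n) f g := by
    intro n
    refine ⟨?_, ?_, ?_⟩
    · intro x y hxy hy
      have h1 := compl_self (c (n + (y + 1)))
      have h2 := (hext n (y + 1)).2 _ _ h1
      have h3 := (hext (y + 1) n).2 _ _ (by rw [Nat.add_comm (y+1) n]; exact h1)
      have h4 := h2.1 x y hxy hy
      have h5 := h3.1 x y hxy (by have := hs (y + 1); omega)
      show (c (y + 1)).f x y = _
      rw [← h4, ← h5]
    · intro x y hx hy
      have h1 := compl_self (c (n + (y + 1)))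
      have h2 := (hext n (y + 1)).2 _ _ h1
      have h3 := (hext (y + 1) n).2 _ _ (by rw [Nat.add_comm (y+1) n]; exact h1)
      have h4 := h2.2.1 x y hx hy
      have h5 := h3.1 x y (by omega) (by have := hs (y + 1); omega)
      show (c (y + 1)).f x y = _
      rw [← h4, ← h5]
    · intro x hx
      have h1 := compl_self (c (n + (x + 1)))
      have h2 := (hext n (x + 1)).2 _ _ h1
      have h3 := (hext (x + 1) n).2 _ _ (by rw [Nat.add_comm (x+1) n]; exact h1)
      have h4 := h2.2.2 x hx
      have h5 := h3.2.2 x (by have := hs (x + 1); omega)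
      show (c (x + 1)).g x = _
      rw [← h4, ← h5]
  refine ⟨f, g, ?_, ?_⟩
  · intro x
    refine ⟨(c (x + 1)).s, fun y hy => ?_⟩
    have h1 := (hfg (x + 1)).2.1 x y (by have := hs (x + 1); omega) hy
    have h2 := (hfg (x + 1)).2.2 x (by have := hs (x + 1); omega)
    rw [h1, h2]
  · intro Ψ hΨ S m _
    obtain ⟨n, hn⟩ := he (⟨Ψ, hΨ⟩, S, m)
    have := hn3 n (c n) f g (by rw [← hcs]; exact hfg (n + 1))
    rw [hn] at this
    exact this

end Pool.Agent.EMP
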