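import Mathlib
import Pool.Agent.EMP.Cls
import Pool.Agent.EMP.Ground

/-!
The iteration.
-/

namespace Pool.Agent.EMP

open Classical in
lemma bookkeeping {α β : Type} (good : α → Prop) (le : α → α → Prop) (hrefl : ∀ a, le a a)
    (htrans : ∀ a b c, le a b → le b c → le a c) (Req : α → β → Prop)
    (hmono : ∀ a a' t, le a a' → Req a t → Req a' t) (Sol : α → β → Prop)
    (hstep : ∀ a t, good a → Req a t → ∃ a', good a' ∧ le a a' ∧ Sol a' t)
    (henum : ∀ a, ∃ e : ℕ → β, (∀ n, Req a (e n)) ∧ ∀ t, Req a t → ∃ n, e n = t)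
    (a0 : α) (h0 : good a0) :
    ∃ W : ℕ → α, W 0 = a0 ∧ (∀ n, good (W n)) ∧ (∀ n, le (W n) (W (n + 1))) ∧
      ∀ n t, Req (W n) t → ∃ m, Sol (W m) t := by
  choose e he1 he2 using henum
  let stp : α → β → α := fun a t =>
    if h : good a ∧ Req a t then Classical.choose (hstep a t h.1 h.2) else a
  have hstp : ∀ a t, good a → Req a t → good (stp a t) ∧ le a (stp a t) ∧ Sol (stp a t) t := by
    intro a t h1 h2
    have h : good a ∧ Req a t := ⟨h1, h2⟩
    have := Classical.choose_spec (hstep a t h1 h2)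
    simp only [stp, h, and_self, dif_pos]
    exact this
  let hist : ℕ → (ℕ → α) := fun n => Nat.rec (fun _ => a0) (fun n H k =>
    if k ≤ n then H k else stp (H n) (e (H n.unpair.1) n.unpair.2)) n
  have hs : ∀ n k, hist (n + 1) k =
      if k ≤ n then hist n k else stp (hist n n) (e (hist n n.unpair.1) n.unpair.2) := fun n k => rfl
  let W : ℕ → α := fun n => hist n n
  have hA : ∀ n k, k ≤ n → hist n k = W k := by
    intro n
    induction n with
    | zero =>
      intro k hk
      have : k = 0 := by omega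
      subst this; rfl
    | succ n ih =>
      intro k hk
      by_cases hkn : k ≤ n
      · rw [hs]; simp only [hkn, if_true]; exact ih k hkn
      · have : k = n + 1 := by omega
        subst this; rfl
  have hW1 : ∀ n, W (n + 1) = stp (W n) (e (W n.unpair.1) n.unpair.2) := by
    intro n
    show hist (n + 1) (n + 1) = _
    rw [hs]
    have : ¬ n + 1 ≤ n := by omega
    simp only [this, if_false]
    rw [hA n n le_rfl, hA n _ (Nat.unpair_left_le n)]
  have main : ∀ n, good (W n) ∧ ∀ k, k ≤ n → le (W k) (W n) := by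
    intro n
    induction n with
    | zero =>
      refine ⟨h0, fun k hk => ?_⟩
      have : k = 0 := by omega
      subst this; exact hrefl _
    | succ n ih =>
      have hreq : Req (W n) (e (W n.unpair.1) n.unpair.2) :=
        hmono _ _ _ (ih.2 _ (Nat.unpair_left_le n)) (he1 _ _)
      obtain ⟨g1, g2, _⟩ := hstp _ _ ih.1 hreq
      rw [hW1]
      refine ⟨g1, fun k hk => ?_⟩
      by_cases hkn : k ≤ n
      · exact htrans _ _ _ (ih.2 k hkn) g2
      · have : k = n + 1 := by omega
        subst this
        rw [hW1]; exact hrefl _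
  refine ⟨W, rfl, fun n => (main n).1, fun n => (main (n + 1)).2 n (by omega), ?_⟩
  intro n t ht
  obtain ⟨j, hj⟩ := he2 _ t ht
  refine ⟨Nat.pair n j + 1, ?_⟩
  rw [hW1, Nat.unpair_pair]
  have hreq : Req (W (Nat.pair n j)) (e (W n) j) :=
    hmono _ _ _ ((main _).2 _ (Nat.left_le_pair n j)) (he1 _ _)
  have := (hstp _ _ (main _).1 hreq).2.2
  rw [hj] at this
  simp only [hj]
  exact this

lemma enum_TLE (a : Om) : ∃ e : ℕ → Om, (∀ n, TLE (e n) a) ∧ ∀ t, TLE t a → ∃ n, e n = t := by
  have hc : {t : Om | TLE t a}.Countable := by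
    have : ∀ t : {t : Om // TLE t a}, ∃ c : Cd, ∀ n v, v ∈ orc t.1 n ↔ Ev a c n v :=
      fun t => exists_code t.2
    choose c hc using this
    have hinj : Function.Injective c := by
      intro t t' h
      apply Subtype.ext
      apply orc_inj
      funext n
      apply Part.ext
      intro v
      rw [hc t n v, hc t' n v, h]
    exact hinj.countable
  obtain ⟨e, he⟩ := hc.exists_eq_range ⟨a, TLE.refl a⟩
  refine ⟨e, fun n => ?_, fun t ht => ?_⟩
  · have : e n ∈ {t : Om | TLE t a} := by rw [he]; exact ⟨n, rfl⟩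
    exact this
  · have : t ∈ Set.range e := by rw [← he]; exact ht
    exact this

/-- realization of transitive patterns in every infinite set computable from a good oracle -/
lemma realize {𝒞 : Set Oper} {f : ℕ → ℕ → Bool} {g : ℕ → Bool}
    (hst : ∀ x, ∃ N, ∀ y, N ≤ y → f x y = g x) (hH : opH ∈ 𝒞) {Y H : Om}
    (hG : Good 𝒞 f g (jn Y H)) (hinf : {x | H x = true}.Infinite) (S : Finset (ℕ × ℕ)) (m : ℕ)
    (hS : Trp (pat S) m) :
    ∃ x : ℕ → ℕ, (∀ i j, i < j → j ≤ m → x i < x j) ∧ (∀ i, i ≤ m → H (x i) = true) ∧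
      ∀ i j, i < j → j ≤ m → f (x i) (x j) = pat S i j := by
  have hI := hG opH hH S m hS
  have hbig : ∀ b, ∃ x, b ≤ x ∧ H x = true := by
    intro b
    by_contra hcon
    push Not at hcon
    apply hinf
    apply (Set.finite_lt_nat b).subset
    intro x hx
    by_contra hxb
    have hxb' : ¬ x < b := hxb
    exact hcon x (by omega) hx
  obtain ⟨ν, hν, hl, hPR⟩ := hI (by
    intro ν _ hν _ b
    obtain ⟨x, hxb, hx⟩ := hbig b
    refine ⟨x, x + 1, hxb, by omega, ?_⟩
    intro p hp
    rcases List.mem_append.mp hp with h | h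
    · rcases hν with h' | h'
      · rw [h'] at h; simp at h
      · exact h' p h
    · rw [List.mem_singleton] at h
      rw [h]
      exact ⟨rfl, by rw [od_jn]; exact hx⟩)
  have hν' : ∀ p ∈ ν, p.2 = p.1 + 1 ∧ H p.1 = true := by
    intro p hp
    rcases hν with h | h
    · rw [h] at hp; simp at hp
    · have := h p hp
      rw [od_jn] at this; exact this
  have hel : ∀ i, i < m → hi ν i = lo ν i + 1 ∧ H (lo ν i) = true := by
    intro i hi'
    have hlt : i < ν.length := by omega
    have := hν' (ν[i]) (List.getElem_mem hlt)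
    unfold hi lo
    rw [List.getD_eq_getElem _ _ hlt]
    exact this
  choose N hN using hst
  obtain ⟨z, hz, hHz⟩ := hbig ((Finset.range m).sup (fun i => max (N (lo ν i)) (lo ν i + 1)))
  have hz' : ∀ i, i < m → N (lo ν i) ≤ z ∧ lo ν i < z := by
    intro i hi'
    have : max (N (lo ν i)) (lo ν i + 1) ≤
        (Finset.range m).sup (fun i => max (N (lo ν i)) (lo ν i + 1)) :=
      Finset.le_sup (f := fun i => max (N (lo ν i)) (lo ν i + 1)) (Finset.mem_range.mpr hi')
    omega
  refine ⟨fun i => if i < m then lo ν i else z, ?_, ?_, ?_⟩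
  · intro i j hij hj
    have him : i < m := by omega
    by_cases hjm : j < m
    · simp only [him, hjm, if_true]
      have h1 := hPR.sorted i j hij (by omega)
      have h2 := (hel i him).1
      omega
    · simp only [him, hjm, if_true, if_false]
      exact (hz' i him).2
  · intro i hi'
    by_cases him : i < m
    · simp only [him, if_true]; exact (hel i him).2
    · simp only [him, if_false]; exact hHz
  · intro i j hij hj
    have him : i < m := by omega
    by_cases hjm : j < m
    · simp only [him, hjm, if_true]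
      have h1 := (hel i him).1
      have h2 := (hel j hjm).1
      exact hPR.look i j hij (by omega) _ _ le_rfl (by omega) le_rfl (by omega)
    · simp only [him, hjm, if_true, if_false]
      have h1 := (hel i him).1
      rw [hN _ _ (hz' i him).1]
      have : j = m := by omega
      rw [this, ← hl]
      exact hPR.lim i (by omega) _ le_rfl (by omega)

theorem model : ∃ (f : ℕ → ℕ → Bool) (W : ℕ → Om), W 0 = code f ∧
    (∀ n, TLE (W n) (W (n + 1))) ∧
    (∀ n t, TLE t (W n) → ∃ m G, TLE G (W m) ∧ {x | G x = true}.Infinite ∧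
      ∀ x y z, x < y → y < z → G x = true → G y = true → G z = true →
        ¬ (t (Nat.pair x y) = t (Nat.pair y z) ∧ t (Nat.pair x y) ≠ t (Nat.pair x z))) ∧
    (∀ n H, TLE H (W n) → {x | H x = true}.Infinite → ∀ S m, Trp (pat S) m →
      ∃ x : ℕ → ℕ, (∀ i j, i < j → j ≤ m → x i < x j) ∧ (∀ i, i ≤ m → H (x i) = true) ∧
        ∀ i j, i < j → j ≤ m → f (x i) (x j) = pat S i j) := by
  obtain ⟨𝒞, hC, hH, hT⟩ := exists_class
  obtain ⟨f, g, hst, hG0⟩ := ground hC.cnt hC.op
  obtain ⟨W, h1, h2, h3, h4⟩ := bookkeeping (α := Om) (β := Om) (Good 𝒞 f g) TLE TLE.refl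
    (fun _ _ _ h h' => TLE.trans h h') (fun a t => TLE t a) (fun a a' t h h' => TLE.trans h' h)
    (fun a t => ∃ G, TLE G a ∧ {x | G x = true}.Infinite ∧
      ∀ x y z, x < y → y < z → G x = true → G y = true → G z = true →
        ¬ (t (Nat.pair x y) = t (Nat.pair y z) ∧ t (Nat.pair x y) ≠ t (Nat.pair x z)))
    (by
      intro a t ha ht
      have g1 := Good_T hC.op hT ha ht
      obtain ⟨G, g2, g3, g4⟩ := em hC ⟨_, hH⟩ g1
      have g5 : Good 𝒞 f g (jn a G) := by
        have := Good_cmp (S := S4) hC.s4 g4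
        have heq : S4 (jn (jn a t) G) = jn a G := by
          unfold S4; rw [ev_jn, ev_jn, od_jn]
        rw [heq] at this; exact this
      refine ⟨jn a G, g5, TLE_left a G, G, TLE_right a G, g2, ?_⟩
      intro x y z hxy hyz hx hy hz
      have := g3 x y z hxy hyz hx hy hz
      unfold TZ at this
      rw [od_jn] at this
      exact this)
    enum_TLE (code f) hG0
  refine ⟨f, W, h1, h3, ?_, ?_⟩
  · intro n t ht
    obtain ⟨m, G, hG⟩ := h4 n t ht
    exact ⟨m, G, hG⟩
  · intro n H hH' hinf S m hS
    exact realize hst hH (Good_T hC.op hT (h2 n) hH') hinf S m hS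

end Pool.Agent.EMP
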